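import Pool.Agent.H3.RCR.Util

/-!
# Project RCR, module SC1: winding forms exist
-/

namespace Pool.Agent.H3.RCR.SC

open Finset

/-- the elementary form crossing the dart `(a, b)` -/
def ef (a b x y : ℕ) : ℤ := (if x = a ∧ y = b then 1 else 0) - (if x = b ∧ y = a then 1 else 0)

theorem ef_anti (a b x y : ℕ) : ef a b x y = - ef a b y x := by
  unfold ef
  have h1 : (x = a ∧ y = b) ↔ (y = b ∧ x = a) := and_comm
  have h2 : (x = b ∧ y = a) ↔ (y = a ∧ x = b) := and_comm
  simp only [h1, h2]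
  ring

/-- the curl of the elementary form -/
theorem ef_curl {F : Finset Tri} (hF : Pre F) {a b c d : ℕ} (hc : (a, b, c) ∈ F)
    (hd : (b, a, d) ∈ F) (t : Tri) (ht : t ∈ F) :
    ef a b t.1 t.2.1 + ef a b t.2.1 t.2.2 + ef a b t.2.2 t.1 =
      (if t ∈ rots (a, b, c) then 1 else 0) - (if t ∈ rots (b, a, d) then 1 else 0) := by
  have hab : a ≠ b := hF.ne _ _ _ hc
  have key : ∀ p q r : ℕ, ∀ x y z : ℕ, (p, q, r) ∈ F → (x, y, z) ∈ F →
      ((if x = p ∧ y = q then 1 else 0) + (if y = p ∧ z = q then 1 else 0) +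
        (if z = p ∧ x = q then 1 else 0) : ℤ) = if (x, y, z) ∈ rots (p, q, r) then 1 else 0 := by
    intro p q r x y z hp hx
    obtain ⟨n1, n2, n3⟩ := hF.nd hx
    by_cases h1 : x = p ∧ y = q
    · obtain ⟨rfl, rfl⟩ := h1
      have : z = r := hF.uniq _ _ _ _ hx hp
      subst this
      rw [if_pos ⟨rfl, rfl⟩, if_neg (fun h => n1 h.1.symm), if_neg (fun h => n3 h.1),
        if_pos (self_mem_rots _)]
      rfl
    by_cases h2 : y = p ∧ z = q
    · obtain ⟨rfl, rfl⟩ := h2
      have : x = r := hF.uniq _ _ _ _ (hF.rot _ _ _ hx) hp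
      subst this
      rw [if_neg h1, if_pos ⟨rfl, rfl⟩, if_neg (fun h => n2 h.1.symm), if_pos (by simp [rots])]
      rfl
    by_cases h3 : z = p ∧ x = q
    · obtain ⟨rfl, rfl⟩ := h3
      have : y = r := hF.uniq _ _ _ _ (hF.rot2 hx) hp
      subst this
      rw [if_neg h1, if_neg h2, if_pos ⟨rfl, rfl⟩, if_pos (by simp [rots])]
      rfl
    rw [if_neg h1, if_neg h2, if_neg h3, if_neg]
    · rfl
    · intro h
      rcases mem_rots.1 h with h | h | h
      all_goals
        injection h with e1 e2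
        injection e2 with e2 e3
        simp only at e1 e2 e3
      · exact h1 ⟨e1, e2⟩
      · exact h3 ⟨e3, e1⟩
      · exact h2 ⟨e2, e3⟩
  obtain ⟨x, y, z⟩ := t
  have k1 := key a b c x y z hc ht
  have k2 := key b a d x y z hd ht
  rw [← k1, ← k2]
  unfold ef
  simp only
  ring

theorem sc1 (h4 : A4Stmt) : SC1Stmt := by
  intro F f1 f2 hF h1 h2
  refine h4 F hF (fun t => ∃ ψ, Wind F f1 t ψ) ?_ ?_ f1 h1 f2 h2 ?_
  · rintro a b c h ⟨ψ, hψ⟩
    refine ⟨ψ, hψ.anti, fun t ht => ?_⟩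
    rw [hψ.curl t ht]
    congr 1
    have : t ∈ rots (a, b, c) ↔ t ∈ rots (b, c, a) := by
      rw [mem_rots, mem_rots]
      simp only
      tauto
    simp only [this]
  · rintro a b c d hc hd ⟨ψ, hψ⟩
    refine ⟨fun x y => ψ x y + ef a b x y, fun x y => ?_, fun t ht => ?_⟩
    · rw [hψ.anti x y, ef_anti a b x y]; ring
    · have e1 := hψ.curl t ht
      have e2 := ef_curl hF.toPre hc hd t ht
      linarith
  · exact ⟨fun _ _ => 0, fun _ _ => by simp, fun t _ => by simp⟩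

end Pool.Agent.H3.RCR.SC
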