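import Pool.Agent.H77.RCR.SC4
import Pool.Agent.H65.RCR.Jump

/-!
# Project RCR, module SC2: separating sets
-/

namespace Pool.Agent.H3.RCR.SC

open Finset Pool.Agent.H3.RCR.A20

/-- the sum of the indicator of a face over a rotation closed set -/
theorem sum_rots {F S : Finset Tri} (hF : Pre F) (hS : RotC S) {f : Tri} (hf : f ∈ F) :
    ∑ t ∈ S, (if t ∈ rots f then (1 : ℤ) else 0) = if f ∈ S then 3 else 0 := by
  classical
  rw [← sum_filter, sum_const, nsmul_eq_mul, mul_one]
  by_cases h : f ∈ S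
  · rw [if_pos h]
    have e : S.filter (fun t => t ∈ rots f) = rots f := by
      ext t
      rw [mem_filter]
      exact ⟨fun h => h.2, fun ht => ⟨rotC_rots_subset hS h ht, ht⟩⟩
    rw [e]
    obtain ⟨a, b, c⟩ := f
    obtain ⟨n1, n2, n3⟩ := hF.nd hf
    have : (rots (a, b, c)).card = 3 := by
      unfold rots
      rw [card_insert_of_notMem, card_insert_of_notMem, card_singleton]
      · simp only [mem_singleton, Prod.mk.injEq, not_and]
        intro e
        exact absurd e n2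
      · simp only [mem_insert, mem_singleton, Prod.mk.injEq, not_or, not_and]
        exact ⟨fun e => absurd e n1, fun e => absurd e.symm n3⟩
    rw [this]
    rfl
  · rw [if_neg h]
    have e : S.filter (fun t => t ∈ rots f) = ∅ := by
      ext t
      simp only [mem_filter, notMem_empty, iff_false, not_and]
      exact fun ht hr => h (mem_of_mem_rots hS hr ht)
    rw [e]
    rfl

/-- three times the flux through a region -/
theorem three_flux {F S : Finset Tri} {f1 f2 : Tri} {ψ : ℕ → ℕ → ℤ} (hF : Pre F) (hS : RotC S)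
    (hSF : S ⊆ F) (h1 : f1 ∈ F) (h2 : f2 ∈ F)
    (hψ : ∀ t ∈ F, ψ t.1 t.2.1 + ψ t.2.1 t.2.2 + ψ t.2.2 t.1 =
      (if t ∈ rots f1 then 1 else 0) - (if t ∈ rots f2 then 1 else 0)) :
    ∑ t ∈ S, ψ t.1 t.2.1 = (if f1 ∈ S then 1 else 0) - (if f2 ∈ S then 1 else 0) := by
  have e := three_sum hS ψ
  rw [sum_congr rfl fun t ht => hψ t (hSF ht), sum_sub_distrib, sum_rots hF hS h1,
    sum_rots hF hS h2] at e
  split_ifs at e ⊢ <;> omega

theorem sc2 : SC2Stmt := by
  classical
  intro F f1 f2 ψ P S hF h1 h2 hψ hP1 hP2 hPS hN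
  by_contra hcon
  push Not at hcon
  -- potentials
  obtain ⟨π, hπ⟩ := sc4 F S ψ (fun n w hw => (hcon n w hw).ge)
  have hπ' : ∀ x ∈ S, ∀ y ∈ S, Adj F x y → ψ x y = π y - π x := by
    intro x hx y hy hxy
    have e1 := hπ x hx y hy hxy
    have e2 := hπ y hy x hx (hF.adj_symm hxy)
    have e3 := hψ.anti x y
    omega
  set h : ℕ → ℤ := fun x => if x ∈ S then π x else 0 with hh
  set ψ' : ℕ → ℕ → ℤ := fun x y => ψ x y - (h y - h x) with hψ'
  have hanti : ∀ a b, ψ' a b = - ψ' b a := by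
    intro a b
    simp only [hψ']
    rw [hψ.anti a b]
    ring
  set B : Finset Tri := F.filter (fun t => t.1 ∈ P ∨ t.2.1 ∈ P ∨ t.2.2 ∈ P) with hB
  have hBF : B ⊆ F := filter_subset _ _
  have hBr : RotC B := by
    intro a b c ht
    rw [hB, mem_filter] at ht ⊢
    refine ⟨hF.rot _ _ _ ht.1, ?_⟩
    have := ht.2
    simp only at this ⊢
    tauto
  have hf1 : f1 ∈ B := by
    rw [hB, mem_filter]
    exact ⟨h1, Or.inl (hP1 _ (Or.inl rfl))⟩
  have hf2 : f2 ∉ B := by
    rw [hB, mem_filter]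
    rintro ⟨-, h | h | h⟩
    · exact (hP2 _ (Or.inl rfl)).1 h
    · exact (hP2 _ (Or.inr (Or.inl rfl))).1 h
    · exact (hP2 _ (Or.inr (Or.inr rfl))).1 h
  have hflux := three_flux (ψ := ψ') hF.toPre hBr hBF h1 h2 (by
    intro t ht
    rw [← hψ.curl t ht]
    simp only [hψ']
    ring)
  rw [if_pos hf1, if_neg hf2] at hflux
  -- the sum over the boundary darts vanishes
  set J : Finset (ℕ × ℕ) := (F.image (fun t => (t.1, t.2.1))).filter (fun e => Jump F B e.1 e.2)
    with hJ
  have hmemJ : ∀ a b, (a, b) ∈ J ↔ Jump F B a b := by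
    intro a b
    rw [hJ, mem_filter, mem_image]
    constructor
    · exact fun h => h.2
    · intro h
      obtain ⟨c, hc⟩ := h.1
      exact ⟨⟨_, hBF hc, rfl⟩, h⟩
  rw [sum_jump hF.toPre hBF J hmemJ ψ' hanti] at hflux
  have hz : ∑ e ∈ J, ψ' e.1 e.2 = 0 := by
    refine sum_eq_zero ?_
    rintro ⟨a, b⟩ he
    obtain ⟨⟨c, hc⟩, d, hd, hd'⟩ := (hmemJ a b).1 he
    have ha : a ∉ P := fun h => hd' (mem_filter.2 ⟨hd, Or.inr (Or.inl h)⟩)
    have hb : b ∉ P := fun h => hd' (mem_filter.2 ⟨hd, Or.inl h⟩)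
    obtain ⟨hcF, hcP⟩ := mem_filter.1 hc
    have hcP' : c ∈ P := by
      rcases hcP with h | h | h
      · exact absurd h ha
      · exact absurd h hb
      · exact h
    have haS : a ∈ S := by
      rcases hN c hcP' a ⟨b, hF.rot2 hcF⟩ with h | h
      · exact absurd h ha
      · exact h
    have hbS : b ∈ S := by
      rcases hN c hcP' b (hF.adj_symm ⟨a, hF.rot _ _ _ hcF⟩) with h | h
      · exact absurd h hb
      · exact h
    show ψ a b - (h b - h a) = 0
    rw [hπ' a haS b hbS ⟨c, hcF⟩]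
    simp only [hh]
    rw [if_pos haS, if_pos hbS]
    ring
  rw [hz] at hflux
  omega

end Pool.Agent.H3.RCR.SC
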