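import Pool.Agent.H77.RCR.SC2
import Pool.Agent.H65.RCR.A20

/-!
# Project RCR, module SC3: shortest closed walks with nonzero winding
-/

namespace Pool.Agent.H3.RCR.SC

open Finset Pool.Agent.H3.RCR.A20

theorem cyc_rev {F : Finset Tri} (hF : Pre F) {m : ℕ} {c : ZMod m → ℕ} (hc : Cyc F c) :
    Cyc F (fun i => c (-i)) where
  three := hc.three
  inj := fun i j h => neg_injective (hc.inj h)
  adj := fun i => by
    have h := hc.adj (-(i + 1))
    have e : -(i + 1) + 1 = -i := by ring
    rw [e] at h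
    exact hF.adj_symm h

theorem sum_rev {m : ℕ} [NeZero m] (ψ : ℕ → ℕ → ℤ) (hψ : ∀ a b, ψ a b = - ψ b a)
    (c : ZMod m → ℕ) :
    ∑ i ∈ range m, ψ (c (-(i : ZMod m))) (c (-((i : ZMod m) + 1))) =
      - ∑ i ∈ range m, ψ (c (i : ZMod m)) (c ((i : ZMod m) + 1)) := by
  rw [← sum_zmod_range (fun i => ψ (c (-i)) (c (-(i + 1)))),
    ← sum_zmod_range (fun i => ψ (c i) (c (i + 1))), ← sum_neg_distrib]
  refine Fintype.sum_equiv (Equiv.subLeft (-1 : ZMod m)) _ _ fun i => ?_
  simp only [Equiv.subLeft_apply]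
  rw [hψ]
  have e1 : -1 - i = -(i + 1) := by ring
  have e2 : -(i + 1) + 1 = -i := by ring
  rw [e1, e2]

/-- the winding of a simple cycle -/
theorem wind_cyc (h20 : A20Stmt) {F : Finset Tri} {f1 f2 : Tri} {ψ : ℕ → ℕ → ℤ} (hF : Pre F)
    (h1 : f1 ∈ F) (h2 : f2 ∈ F) (hψ : Wind F f1 f2 ψ) {m : ℕ} {c : ZMod m → ℕ} (hc : Cyc F c)
    {S : Finset Tri} (hS : Side F c S) :
    ∑ i ∈ range m, ψ (c (i : ZMod m)) (c ((i : ZMod m) + 1)) =
      (if f1 ∈ S then 1 else 0) - (if f2 ∈ S then 1 else 0) := by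
  rw [← h20 ℤ F S m c ψ hF hc hS hψ.anti]
  exact three_flux hF hS.rot hS.sub h1 h2 hψ.curl

theorem wsum_small {F : Finset Tri} {R : Set ℕ} {ψ : ℕ → ℕ → ℤ} (hF : Pre F)
    (hψ : ∀ a b, ψ a b = - ψ b a) {n : ℕ} {w : ℕ → ℕ} (hw : CWalk F R n w) (hn : n < 3) :
    wsum ψ n w = 0 := by
  interval_cases n
  · rfl
  · exfalso
    have h := hw.adj 0 (by norm_num)
    have e := hw.closed
    rw [e] at h
    exact hF.adj_ne h rfl
  · unfold wsum
    rw [sum_range_succ, sum_range_one]
    have e := hw.closed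
    simp only [zero_add, Nat.reduceAdd]
    rw [e, hψ (w 0) (w 1)]
    ring

/-- a closed walk without repetitions is a cycle -/
theorem cyc_of_walk {F : Finset Tri} {R : Set ℕ} {n : ℕ} {w : ℕ → ℕ} (hw : CWalk F R n w)
    (hn : 3 ≤ n) (hinj : ∀ i j, i < j → j < n → w i ≠ w j) :
    Cyc F (fun i : ZMod n => w i.val) ∧ (∀ i : ZMod n, w (i + 1).val = w (i.val + 1)) ∧
    ∀ ψ : ℕ → ℕ → ℤ, ∑ i ∈ range n, ψ (w (i : ZMod n).val) (w ((i : ZMod n) + 1).val) =
      wsum ψ n w := by
  have : NeZero n := ⟨by omega⟩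
  have h1 : ∀ i : ZMod n, w (i + 1).val = w (i.val + 1) := by
    intro i
    have hv := ZMod.val_add i 1
    have h1' : (1 : ZMod n).val = 1 := ZMod.val_one'' (by omega)
    rw [h1'] at hv
    have hi := ZMod.val_lt i
    rcases Nat.lt_or_ge (i.val + 1) n with h | h
    · rw [hv, Nat.mod_eq_of_lt h]
    · have e : i.val + 1 = n := by omega
      rw [hv, e, Nat.mod_self, hw.closed]
  refine ⟨⟨hn, ?_, ?_⟩, h1, ?_⟩
  · intro i j h
    rcases lt_trichotomy i.val j.val with h' | h' | h'
    · exact absurd h (hinj _ _ h' (ZMod.val_lt j))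
    · exact ZMod.val_injective n h'
    · exact absurd h.symm (hinj _ _ h' (ZMod.val_lt i))
  · intro i
    show Adj F (w i.val) (w (i + 1).val)
    rw [h1]
    exact hw.adj _ (ZMod.val_lt i)
  · intro ψ
    unfold wsum
    refine sum_congr rfl fun i hi => ?_
    rw [mem_range] at hi
    rw [h1, ZMod.val_cast_of_lt hi]

/-- a chord splits a closed walk into two -/
theorem chord_split {F : Finset Tri} {R : Set ℕ} {n : ℕ} {w : ℕ → ℕ} {ψ : ℕ → ℕ → ℤ}
    (hF : Pre F) (hψ : ∀ a b, ψ a b = - ψ b a)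
    (hw : CWalk F R n w) {i j : ℕ} (hij : i < j) (hj : j < n) (hadj : Adj F (w i) (w j)) :
    ∃ v1 v2, CWalk F R (j - i + 1) v1 ∧ CWalk F R (n - (j - i) + 1) v2 ∧
      wsum ψ n w = wsum ψ (j - i + 1) v1 + wsum ψ (n - (j - i) + 1) v2 := by
  set v1 : ℕ → ℕ := fun k => if k ≤ j - i then w (i + k) else w i with hv1
  set v2 : ℕ → ℕ := fun k => if k ≤ i then w k else w (k + (j - i) - 1) with hv2
  have e1 : ∀ k ≤ j - i, v1 k = w (i + k) := fun k hk => if_pos hk
  have e1' : v1 (j - i + 1) = w i := if_neg (by omega)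
  have e2 : ∀ k ≤ i, v2 k = w k := fun k hk => if_pos hk
  have e2' : ∀ k, v2 (i + 1 + k) = w (j + k) := fun k => by
    show (if i + 1 + k ≤ i then w (i + 1 + k) else w (i + 1 + k + (j - i) - 1)) = w (j + k)
    rw [if_neg (by omega)]
    congr 1
    omega
  refine ⟨v1, v2, ⟨?_, ?_, ?_⟩, ⟨?_, ?_, ?_⟩, ?_⟩
  · intro k hk
    rcases Nat.lt_succ_iff_lt_or_eq.1 hk with h | rfl
    · rw [e1 k h.le, e1 (k + 1) (by omega), ← add_assoc]
      exact hw.adj _ (by omega)
    · rw [e1 _ le_rfl, e1']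
      have : i + (j - i) = j := by omega
      rw [this]
      exact hF.adj_symm hadj
  · intro k hk
    rcases Nat.le_succ_iff.1 hk with h | rfl
    · rw [e1 k h]
      exact hw.mem _ (by omega)
    · rw [e1']
      exact hw.mem _ (by omega)
  · rw [e1', e1 0 (Nat.zero_le _), add_zero]
  · intro k hk
    rcases lt_trichotomy k i with h | rfl | h
    · rw [e2 k h.le, e2 (k + 1) h]
      exact hw.adj _ (by omega)
    · have := e2' 0
      rw [add_zero, add_zero] at this
      rw [e2 k le_rfl, this]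
      exact hadj
    · obtain ⟨l, rfl⟩ := Nat.exists_eq_add_of_le (Nat.succ_le_of_lt h)
      have h3 : Nat.succ i + l + 1 = i + 1 + (l + 1) := by omega
      have h4 : Nat.succ i + l = i + 1 + l := by omega
      rw [h3, h4, e2' l, e2' (l + 1), ← add_assoc]
      exact hw.adj _ (by omega)
  · intro k hk
    rcases Nat.lt_or_ge i k with h | h
    · obtain ⟨l, rfl⟩ := Nat.exists_eq_add_of_le (Nat.succ_le_of_lt h)
      have h4 : Nat.succ i + l = i + 1 + l := by omega
      rw [h4, e2' l]
      exact hw.mem _ (by omega)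
    · rw [e2 k h]
      exact hw.mem _ (by omega)
  · have h5 : n - (j - i) + 1 = i + 1 + (n - j) := by omega
    rw [h5, e2' (n - j), e2 0 (Nat.zero_le _)]
    have : j + (n - j) = n := by omega
    rw [this]
    exact hw.closed
  · have s1 : wsum ψ (j - i + 1) v1 = wsum ψ (j - i) (fun k => w (i + k)) + ψ (w j) (w i) := by
      have : wsum ψ (j - i + 1) v1 = wsum ψ (j - i) v1 + ψ (v1 (j - i)) (v1 (j - i + 1)) := by
        unfold wsum
        rw [sum_range_succ]
      rw [this, e1 _ le_rfl, e1']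
      have h6 : i + (j - i) = j := by omega
      rw [h6, wsum_congr e1]
    have s2 : wsum ψ (n - (j - i) + 1) v2 = wsum ψ i w + ψ (w i) (w j) +
        wsum ψ (n - j) (fun k => w (j + k)) := by
      have h5 : n - (j - i) + 1 = (i + 1) + (n - j) := by omega
      rw [h5, wsum_append]
      have : wsum ψ (i + 1) v2 = wsum ψ i v2 + ψ (v2 i) (v2 (i + 1)) := by
        unfold wsum
        rw [sum_range_succ]
      rw [this, wsum_congr e2, e2 i le_rfl]
      have h6 := e2' 0
      rw [add_zero, add_zero] at h6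
      rw [h6]
      congr 1
      exact wsum_congr fun k _ => e2' k
    have s3 : wsum ψ n w = wsum ψ i w + (wsum ψ (j - i) (fun k => w (i + k)) +
        wsum ψ (n - j) (fun k => w (j + k))) := by
      have : n = i + ((j - i) + (n - j)) := by omega
      conv_lhs => rw [this]
      rw [wsum_append, wsum_append]
      congr 2
      refine wsum_congr fun k _ => ?_
      congr 1
      omega
    rw [s1, s2, s3, hψ (w j) (w i)]
    ring

theorem sc3 (h6 : A6Stmt) (h20 : A20Stmt) : SC3Stmt := by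
  classical
  intro F f1 f2 ψ R n0 w0 hF h1 h2 hψ hw0 hs0
  have hex : ∃ n, ∃ w, CWalk F R n w ∧ wsum ψ n w ≠ 0 := ⟨n0, w0, hw0, hs0⟩
  obtain ⟨b, hb⟩ : ∃ b, b = Nat.find hex := ⟨_, rfl⟩
  obtain ⟨w, hw, hs⟩ := Nat.find_spec hex
  rw [← hb] at hw hs
  have hmin : ∀ n w, CWalk F R n w → n < b → wsum ψ n w = 0 := by
    intro n w hw hn
    by_contra h
    exact Nat.find_min hex (hb ▸ hn) ⟨w, hw, h⟩
  have hb0 : b ≤ n0 := hb ▸ Nat.find_min' hex ⟨w0, hw0, hs0⟩
  have hb3 : 3 ≤ b := by
    by_contra h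
    exact hs (wsum_small hF.toPre hψ.anti hw (not_le.1 h))
  have hinj : ∀ i j, i < j → j < b → w i ≠ w j := by
    intro i j hij hj h
    apply hs
    rw [wsum_cut ψ hij.le hj.le h, hmin _ _ (cwalk_cut hw hij.le hj.le h) (by omega),
      hmin _ _ (cwalk_mid (cwalk_iff.1 hw).1 hij.le hj.le h) (by omega)]
    rfl
  have : NeZero b := ⟨by omega⟩
  obtain ⟨hcyc, hsucc, hsum⟩ := cyc_of_walk hw hb3 hinj
  -- no chords
  have hch0 : ∀ i j : ZMod b, i.val < j.val → Adj F (w i.val) (w j.val) →
      j = i + 1 ∨ i = j + 1 := by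
    intro i j hij hadj
    have hj := ZMod.val_lt j
    by_cases hA : j.val = i.val + 1
    · left
      apply ZMod.val_injective b
      have hv := ZMod.val_add i 1
      rw [ZMod.val_one'' (by omega : b ≠ 1)] at hv
      rw [hv, Nat.mod_eq_of_lt (by omega), hA]
    by_cases hB : i.val = 0 ∧ j.val + 1 = b
    · right
      apply ZMod.val_injective b
      have hv := ZMod.val_add j 1
      rw [ZMod.val_one'' (by omega : b ≠ 1)] at hv
      rw [hv, hB.2, Nat.mod_self, hB.1]
    exfalso
    obtain ⟨v1, v2, hv1, hv2, e⟩ := chord_split (ψ := ψ) hF.toPre hψ.anti hw hij hj hadj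
    apply hs
    rw [e, hmin _ _ hv1 (by omega), hmin _ _ hv2 (by omega)]
    rfl
  have hch : ∀ i j : ZMod b, Adj F (w i.val) (w j.val) → j = i + 1 ∨ i = j + 1 := by
    intro i j hadj
    rcases lt_trichotomy i.val j.val with h | h | h
    · exact hch0 i j h hadj
    · rw [h] at hadj
      exact absurd rfl (hF.adj_ne hadj)
    · exact (hch0 j i h (hF.adj_symm hadj)).symm
  -- the bound
  have hbound : ∀ n w, CWalk F R n w → (b : ℤ) * |wsum ψ n w| ≤ n := by
    intro n
    induction n using Nat.strong_induction_on with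
    | _ n ih =>
      intro w hw
      by_cases hn : n < 3
      · rw [wsum_small hF.toPre hψ.anti hw hn]
        simp
      by_cases hrep : ∃ i j, i < j ∧ j < n ∧ w i = w j
      · obtain ⟨i, j, hij, hj, h⟩ := hrep
        rw [wsum_cut ψ hij.le hj.le h]
        have i1 := ih (n - (j - i)) (by omega) _ (cwalk_cut hw hij.le hj.le h)
        have i2 := ih (j - i) (by omega) _ (cwalk_mid (cwalk_iff.1 hw).1 hij.le hj.le h)
        have i3 := abs_add_le (wsum ψ (n - (j - i)) (cut w i j))
          (wsum ψ (j - i) (fun k => w (i + k)))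
        have hb' : (0 : ℤ) ≤ b := by positivity
        have i4 := mul_le_mul_of_nonneg_left i3 hb'
        have i5 : ((n - (j - i) : ℕ) : ℤ) + ((j - i : ℕ) : ℤ) = n := by
          rw [← Nat.cast_add]
          congr 1
          omega
        rw [mul_add] at i4
        linarith
      · push Not at hrep
        obtain ⟨hcyc', -, hsum'⟩ := cyc_of_walk hw (not_lt.1 hn) hrep
        obtain ⟨S, hS⟩ := (h6 F hF n _).1 hcyc'
        have e := wind_cyc h20 hF.toPre h1 h2 hψ hcyc' hS
        rw [hsum' ψ] at e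
        by_cases hz : wsum ψ n w = 0
        · rw [hz]
          simp
        have hle : |wsum ψ n w| ≤ 1 := by
          rw [e]
          split_ifs <;> simp
        have hbn : b ≤ n := by
          by_contra h
          exact hz (hmin n w hw (not_le.1 h))
        have hb' : (0 : ℤ) ≤ b := by positivity
        have := mul_le_mul_of_nonneg_left hle hb'
        have : (b : ℤ) ≤ n := by exact_mod_cast hbn
        linarith
  obtain ⟨S, hS⟩ := (h6 F hF b _).1 hcyc
  have hS' := (h6 F hF b _).2 S hS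
  have e := wind_cyc h20 hF.toPre h1 h2 hψ hcyc hS
  by_cases hf1 : f1 ∈ S
  · have hf2 : f2 ∉ S := by
      intro hf2
      rw [if_pos hf1, if_pos hf2, hsum ψ] at e
      exact hs (by rw [e]; rfl)
    rw [if_pos hf1, if_neg hf2] at e
    refine ⟨b, fun i => w (-i).val, cyc_rev hF.toPre hcyc, fun i => hw.mem _ (ZMod.val_lt _).le,
      hb0, ?_, hbound, ?_, S, ?_, hf1, hf2⟩
    · intro i j hadj
      rcases hch (-i) (-j) hadj with h | h
      · right
        have : i = -(-i) := by ring
        rw [this]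
        have : j = -(-j) := by ring
        rw [this, h]
        ring
      · left
        have : j = -(-j) := by ring
        rw [this]
        have : i = -(-i) := by ring
        rw [this, h]
        ring
    · have := sum_rev ψ hψ.anti (fun i : ZMod b => w i.val)
      rw [this, e]
      rfl
    · have : (fun i : ZMod b => (fun i : ZMod b => w (-i).val) (-i)) = fun i => w i.val := by
        funext i
        simp
      rw [this]
      exact hS
  · have hf2 : f2 ∈ S := by
      by_contra hf2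
      rw [if_neg hf1, if_neg hf2, hsum ψ] at e
      exact hs (by rw [e]; rfl)
    rw [if_neg hf1, if_pos hf2] at e
    refine ⟨b, fun i => w i.val, hcyc, fun i => hw.mem _ (ZMod.val_lt _).le, hb0, hch, hbound,
      ?_, F \ S, hS', mem_sdiff.2 ⟨h1, hf1⟩, fun h => (mem_sdiff.1 h).2 hf2⟩
    rw [e]
    rfl

end Pool.Agent.H3.RCR.SC
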