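import Pool.Agent.H77.RCR.SC3

/-!
# Project RCR, module SC5: a tight cycle in a long chain
-/

namespace Pool.Agent.H3.RCR.SC

open Finset

theorem Chain.mono' {F : Finset Tri} {H : ℕ} {Kc : ℕ → Finset ℕ} (h : Chain F H Kc) :
    ∀ t ≤ H, ∀ s ≤ t, Kc s ⊆ Kc t := by
  intro t
  induction t with
  | zero =>
    intro _ s hs
    rw [Nat.le_zero.1 hs]
  | succ t ih =>
    intro ht s hs
    rcases Nat.le_succ_iff.1 hs with h' | h'
    · exact (ih (by omega) s h').trans (h.mono t (by omega))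
    · rw [h']

/-- a bounded sequence that never increases is somewhere constant -/
theorem exists_const {β : ℕ} (g : ℕ → ℕ) (h0 : g 0 ≤ β) (hm : ∀ j ≤ β, g (j + 1) ≤ g j) :
    ∃ j ≤ β, g (j + 1) = g j := by
  by_contra hcon
  push Not at hcon
  have : ∀ j ≤ β + 1, g j + j ≤ β := by
    intro j
    induction j with
    | zero => intro _; simpa using h0
    | succ j ih =>
      intro hj
      have h1 := ih (by omega)
      have h2 := hm j (by omega)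
      have h3 := hcon j (by omega)
      omega
  have := this (β + 1) le_rfl
  omega

theorem sc5 (h2 : SC2Stmt) (h3 : SC3Stmt) : SC5Stmt := by
  classical
  intro β h
  refine ⟨1 + (β + 1) * (max h 1), ?_⟩
  obtain ⟨h', hh'⟩ : ∃ h', h' = max h 1 := ⟨_, rfl⟩
  rw [← hh']
  have hh1 : 1 ≤ h' := hh' ▸ le_max_right _ _
  have hhh : h ≤ h' := hh' ▸ le_max_left _ _
  obtain ⟨H, hH⟩ : ∃ H, H = 1 + (β + 1) * h' := ⟨_, rfl⟩
  rw [← hH]
  intro F Kc f1 f2 ψ hF hK hf1 hf2 hK1 hK2 hψ hB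
  have hH1 : 1 ≤ H := by omega
  -- a first walk
  obtain ⟨B, hBdef⟩ : ∃ B : Finset ℕ, B = (Kc 1).filter (fun x => ∃ y, Adj F x y ∧ y ∉ Kc 1) :=
    ⟨_, rfl⟩
  have hBmem : ∀ x, x ∈ B ↔ x ∈ Kc 1 ∧ ∃ y, Adj F x y ∧ y ∉ Kc 1 := by
    intro x
    rw [hBdef, mem_filter]
  have hBcard : B.card ≤ β := hB B fun x hx => (hBmem x).1 hx
  have hB0 : ∀ x ∈ B, x ∉ Kc 0 := by
    intro x hx h0
    obtain ⟨_, y, hy, hy'⟩ := (hBmem x).1 hx
    exact hy' (hK.nbr 0 (by omega) x h0 y hy)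
  obtain ⟨n0, w0, hw0, hs0⟩ := h2 F f1 f2 ψ (Kc 1 \ B) B hF hf1 hf2 hψ
    (fun x hx => mem_sdiff.2 ⟨Chain.mono' hK 1 hH1 0 (by omega) (hK1 x hx),
      fun hxB => hB0 x hxB (hK1 x hx)⟩)
    (fun x hx => by
      have hx1 : x ∉ Kc 1 := fun h => hK2 x hx (Chain.mono' hK H le_rfl 1 hH1 h)
      exact ⟨fun h => hx1 (mem_sdiff.1 h).1, fun h => hx1 ((hBmem x).1 h).1⟩)
    sdiff_disjoint
    (fun x hx y hxy => by
      obtain ⟨hx1, hxB⟩ := mem_sdiff.1 hx
      have hy1 : y ∈ Kc 1 := by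
        by_contra hy
        exact hxB ((hBmem x).2 ⟨hx1, y, hxy, hy⟩)
      by_cases hyB : y ∈ B
      · exact Or.inr hyB
      · exact Or.inl (mem_sdiff.2 ⟨hy1, hyB⟩))
  obtain ⟨n1, C1, hC1, hC1R, -, -, -, hC1s, -⟩ := h3 F f1 f2 ψ {x | x ∈ B} n0 w0 hF hf1 hf2 hψ
    hw0 hs0
  -- the walk along `C1`
  have hn1 : n1 ≤ β := by
    have : NeZero n1 := ⟨by have := hC1.three; omega⟩
    have h4 : (univ : Finset (ZMod n1)).card ≤ B.card :=
      card_le_card_of_injOn C1 (fun i _ => hC1R i) (hC1.inj.injOn)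
    rw [card_univ, ZMod.card] at h4
    exact h4.trans hBcard
  have hw1 : CWalk F {x | x ∈ B} n1 (fun i => C1 (i : ZMod n1)) := by
    refine ⟨fun i _ => ?_, fun i _ => hC1R _, by simp⟩
    have := hC1.adj (i : ZMod n1)
    push_cast
    exact this
  have hw1s : wsum ψ n1 (fun i => C1 (i : ZMod n1)) ≠ 0 := by
    have : wsum ψ n1 (fun i => C1 (i : ZMod n1)) = -1 := by
      rw [← hC1s]
      unfold wsum
      refine sum_congr rfl fun i _ => ?_
      push_cast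
      rfl
    rw [this]
    norm_num
  -- tight cycles at all levels
  have key : ∀ s, 1 ≤ s → s ≤ H → ∃ (b : ℕ) (C : ZMod b → ℕ), Cyc F C ∧
      (∀ i, C i ∈ Kc s ∧ C i ∉ Kc 0) ∧ b ≤ n1 ∧
      (∀ i j, Adj F (C i) (C j) → j = i + 1 ∨ i = j + 1) ∧
      (∀ n w, CWalk F {x | x ∈ Kc s ∧ x ∉ Kc 0} n w → (b : ℤ) * |wsum ψ n w| ≤ n) ∧
      ∑ i ∈ Finset.range b, ψ (C (i : ZMod b)) (C ((i : ZMod b) + 1)) = -1 ∧
      ∃ D, Side F (fun i => C (-i)) D ∧ f1 ∈ D ∧ f2 ∉ D := by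
    intro s hs1 hsH
    exact h3 F f1 f2 ψ {x | x ∈ Kc s ∧ x ∉ Kc 0} n1 _ hF hf1 hf2 hψ
      (CWalk.mono hw1 fun x hx => ⟨Chain.mono' hK s hsH 1 hs1 ((hBmem x).1 hx).1, hB0 x hx⟩) hw1s
  choose b C hb using fun (s : ℕ) (hs : 1 ≤ s ∧ s ≤ H) => key s hs.1 hs.2
  -- the lengths
  set g : ℕ → ℕ := fun j => if hj : 1 + j * h' ≤ H then b (1 + j * h') ⟨by omega, hj⟩ else 0
    with hg
  have hjH : ∀ j ≤ β + 1, 1 + j * h' ≤ H := by
    intro j hj
    rw [hH]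
    have := Nat.mul_le_mul_right h' hj
    omega
  have hgj : ∀ j (hj : j ≤ β + 1), g j = b (1 + j * h') ⟨by omega, hjH j hj⟩ := by
    intro j hj
    simp only [hg]
    rw [dif_pos (hjH j hj)]
  have hle : ∀ s t (hs : 1 ≤ s ∧ s ≤ H) (ht : 1 ≤ t ∧ t ≤ H), s ≤ t → b t ht ≤ b s hs := by
    intro s t hs ht hst
    obtain ⟨c1, c2, -, -, -, c6, -⟩ := hb s hs
    obtain ⟨-, -, -, -, d5, -, -⟩ := hb t ht
    have hw : CWalk F {x | x ∈ Kc t ∧ x ∉ Kc 0} (b s hs) (fun i => C s hs (i : ZMod (b s hs))) := by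
      refine ⟨fun i _ => ?_, fun i _ => ⟨Chain.mono' hK t ht.2 s hst (c2 _).1, (c2 _).2⟩, by simp⟩
      have := c1.adj (i : ZMod (b s hs))
      push_cast
      exact this
    have := d5 _ _ hw
    have e : wsum ψ (b s hs) (fun i => C s hs (i : ZMod (b s hs))) = -1 := by
      rw [← c6]
      unfold wsum
      refine sum_congr rfl fun i _ => ?_
      push_cast
      rfl
    rw [e] at this
    simp only [abs_neg, abs_one, mul_one] at this
    exact_mod_cast this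
  obtain ⟨j, hj, hjeq⟩ := exists_const (β := β) g (by
      rw [hgj 0 (by omega)]
      exact (hb _ _).2.2.1.trans hn1)
    (by
      intro j hj
      rw [hgj j (by omega), hgj (j + 1) (by omega)]
      refine hle _ _ _ _ ?_
      have := Nat.mul_le_mul_right h' (Nat.le_succ j)
      simp only [Nat.succ_eq_add_one] at this
      omega)
  rw [hgj j (by omega), hgj (j + 1) (by omega)] at hjeq
  have hsj := hjH j (by omega)
  have hsj1 := hjH (j + 1) (by omega)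
  have hstep : 1 + (j + 1) * h' = 1 + j * h' + h' := by ring
  obtain ⟨c1, c2, c3, c4, c5, c6, c7⟩ := hb (1 + j * h') ⟨by omega, hsj⟩
  obtain ⟨-, -, -, -, d5, -, -⟩ := hb (1 + (j + 1) * h') ⟨by omega, hsj1⟩
  refine ⟨1 + j * h', b (1 + j * h') ⟨by omega, hsj⟩, C (1 + j * h') ⟨by omega, hsj⟩, ?_, ?_, c1,
    c2, c4, ?_, c6, c7⟩
  · rw [hstep] at hsj1
    omega
  · exact c3.trans hn1
  · intro n w hw
    rw [← hjeq]
    refine d5 n w (CWalk.mono hw fun x hx => ⟨?_, hx.2⟩)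
    refine Chain.mono' hK _ hsj1 _ ?_ hx.1
    rw [hstep]
    omega

end Pool.Agent.H3.RCR.SC
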