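import Pool.Agent.H77.RCR.SC5

/-!
# Project RCR, module SC6: the annulus around a tight cycle
-/

namespace Pool.Agent.H3.RCR.SC

open Finset Relation

theorem mem_ball_succ {F : Finset Tri} {T : Finset ℕ} {n y : ℕ} :
    y ∈ ball F T (n + 1) ↔ y ∈ ball F T n ∨ (y ∈ verts F ∧ ∃ x ∈ ball F T n, Adj F x y) := by
  simp only [ball, mem_union, mem_filter]

theorem ball_mono {F : Finset Tri} {T : Finset ℕ} {m n : ℕ} (h : m ≤ n) :
    ball F T m ⊆ ball F T n := by
  induction h with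
  | refl => exact subset_rfl
  | step _ ih => exact fun x hx => mem_ball_succ.2 (Or.inl (ih hx))

theorem sc6 (h2 : SC2Stmt) (h3 : SC3Stmt) (h4 : SC4Stmt) (h7 : A7Stmt) : SC6Stmt := by
  classical
  intro F H s h b N Kc f1 f2 ψ C D hF hK hf1 hf2 hK1 hK2 hψ hsh hN1 hNh hC hCK hCch hCw hCs hD
    hf1D hf2D
  have hb3 := hC.three
  have : NeZero b := ⟨by omega⟩
  have hCr := cyc_rev hF.toPre hC
  obtain ⟨hDc, hDin, hDv⟩ := h7 F hF b _ D hCr hD
  have hDF := hD.sub
  have hDrot := hD.rot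
  -- inner vertices of `D`
  have hin : ∀ v ∈ verts D, (∀ i, v ≠ C i) → ∀ p q, (v, p, q) ∈ F → (v, p, q) ∈ D :=
    fun v hv hvi => hDin v hv fun i => hvi (-i)
  have hmonoK := Chain.mono' hK
  -- `Kc 0` is inside `D`
  have hK0 : ∀ x ∈ Kc 0, x ∈ verts D ∧ ∀ p q, (x, p, q) ∈ F → (x, p, q) ∈ D := by
    have hnC : ∀ x ∈ Kc 0, ∀ i, x ≠ C i := fun x hx i e => (hCK i).2 (e ▸ hx)
    intro x hx
    have hx0 : f1.1 ∈ Kc 0 := hK1 _ (isV_fst _)
    have hpath := hK.conn 0 (Nat.zero_le _) f1.1 hx0 x hx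
    have hv : x ∈ verts D := by
      have : x ∈ Kc 0 ∧ x ∈ verts D := by
        induction hpath with
        | refl => exact ⟨hx0, isV_mem_verts hDrot hf1D (isV_fst _)⟩
        | @tail y z _ hyz ih =>
          obtain ⟨hy0, hyD⟩ := ih (by
            rcases ReflTransGen.cases_tail ‹ReflTransGen _ _ y› with h | ⟨_, _, h⟩
            · rw [h]; exact hx0
            · exact h.2)
          obtain ⟨⟨c, hc⟩, hz⟩ := hyz
          refine ⟨hz, ?_⟩
          have := hin y hyD (hnC y hy0) z c hc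
          exact mem_verts.2 ⟨_, _, hDrot _ _ _ this⟩
      exact this.2
    exact ⟨hv, hin x hv (hnC x hx)⟩
  -- balls around `C`
  obtain ⟨T, hT⟩ : ∃ T : Finset ℕ, T = univ.image C := ⟨_, rfl⟩
  have hCT : ∀ i, C i ∈ T := fun i => by rw [hT]; exact mem_image_of_mem _ (mem_univ _)
  have hTC : ∀ x ∈ T, ∃ i, x = C i := by
    intro x hx
    rw [hT, mem_image] at hx
    obtain ⟨i, -, e⟩ := hx
    exact ⟨i, e.symm⟩
  have hball : ∀ n ≤ h, ball F T n ⊆ Kc (s + n) := by
    intro n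
    induction n with
    | zero =>
      intro _ x hx
      obtain ⟨i, rfl⟩ := hTC x hx
      exact (hCK i).1
    | succ n ih =>
      intro hn x hx
      rcases mem_ball_succ.1 hx with h' | ⟨-, y, hy, hyx⟩
      · exact hK.mono (s + n) (by omega) (ih (by omega) h')
      · exact hK.nbr (s + n) (by omega) y (ih (by omega) hy) x hyx
  -- `f2` is far
  have hf2x : ∀ x, isV x f2 → x ∉ verts D := by
    intro x hx hxD
    have hxC : ∀ i, x ≠ C i := by
      rintro i rfl
      exact hK2 _ hx (hmonoK H le_rfl s (by omega) (hCK i).1)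
    have hall := hin x hxD hxC
    obtain ⟨p, q, r⟩ := f2
    rcases hx with rfl | rfl | rfl
    · exact hf2D (hall _ _ hf2)
    · exact hf2D (hDrot _ _ _ (hDrot _ _ _ (hall _ _ (hF.rot _ _ _ hf2))))
    · exact hf2D (hDrot _ _ _ (hall _ _ (hF.rot2 hf2)))
  -- the outer level
  obtain ⟨S, hS⟩ : ∃ S : Finset ℕ, S = (verts F).filter
    (fun x => x ∉ verts D ∧ x ∈ ball F T N ∧ x ∉ ball F T (N - 1)) := ⟨_, rfl⟩
  have hSm : ∀ x, x ∈ S ↔ x ∈ verts F ∧ x ∉ verts D ∧ x ∈ ball F T N ∧ x ∉ ball F T (N - 1) := by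
    intro x
    rw [hS, mem_filter]
  have hNN : N - 1 + 1 = N := by omega
  have hSK : ∀ x ∈ S, x ∈ Kc (s + h) := fun x hx =>
    hmonoK (s + h) hsh (s + N) (by omega) (hball N hNh ((hSm x).1 hx).2.2.1)
  obtain ⟨n0, w0, hw0, hs0⟩ := h2 F f1 f2 ψ (verts D ∪ ball F T (N - 1)) S hF hf1 hf2 hψ
    (fun x hx => mem_union_left _ (isV_mem_verts hDrot hf1D hx))
    (fun x hx => by
      refine ⟨fun h' => ?_, fun h' => hf2x x hx |>.elim (absurd ?_ ((hSm x).1 h').2.1)⟩
      · rcases mem_union.1 h' with h'' | h''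
        · exact hf2x x hx h''
        · exact hK2 x hx (hmonoK H le_rfl _ (by omega) (hball (N - 1) (by omega) h''))
      · exact absurd (hmonoK H le_rfl _ (by omega) (hSK x h')) (hK2 x hx))
    (by
      rw [disjoint_left]
      intro x hx hxS
      obtain ⟨-, h5, -, h6⟩ := (hSm x).1 hxS
      rcases mem_union.1 hx with h' | h'
      · exact h5 h'
      · exact h6 h')
    (fun x hx y hxy => by
      have hyF : y ∈ verts F := hF.mem_right hxy
      have hball' : x ∈ ball F T (N - 1) → y ∈ verts D ∪ ball F T (N - 1) ∨ y ∈ S := by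
        intro hx
        have hyN : y ∈ ball F T N := by
          rw [← hNN]
          exact mem_ball_succ.2 (Or.inr ⟨hyF, x, hx, hxy⟩)
        by_cases h5 : y ∈ verts D
        · exact Or.inl (mem_union_left _ h5)
        by_cases h6 : y ∈ ball F T (N - 1)
        · exact Or.inl (mem_union_right _ h6)
        exact Or.inr ((hSm y).2 ⟨hyF, h5, hyN, h6⟩)
      rcases mem_union.1 hx with h' | h'
      · by_cases hxC : ∃ i, x = C i
        · obtain ⟨i, rfl⟩ := hxC
          exact hball' (ball_mono (Nat.zero_le _) (hCT i))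
        · push Not at hxC
          obtain ⟨c, hc⟩ := hxy
          exact Or.inl (mem_union_left _
            (mem_verts.2 ⟨_, _, hDrot _ _ _ (hin x h' hxC y c hc)⟩))
      · exact hball' h')
  obtain ⟨z, Z, hZ, hZS, -, hZch, -, -, K, hKs, hf1K, hf2K⟩ := h3 F f1 f2 ψ {x | x ∈ S} n0 w0 hF
    hf1 hf2 hψ hw0 hs0
  have hZr := cyc_rev hF.toPre hZ
  obtain ⟨-, hKin0, -⟩ := h7 F hF z _ K hZr hKs
  have hKin : ∀ v ∈ verts K, (∀ i, v ≠ Z i) → ∀ p q, (v, p, q) ∈ F → (v, p, q) ∈ K :=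
    fun v hv hvi => hKin0 v hv fun i => hvi (-i)
  have hKrot := hKs.rot
  -- `D ⊆ K`
  have hDK : D ⊆ K := by
    intro t ht
    refine hDc (fun t => t ∈ K) (fun a b c _ h' => hKrot _ _ _ h') ?_ f1 hf1D t ht hf1K
    intro a b' c d hc hd hcK
    by_contra hdK
    obtain ⟨i, hi, -⟩ := (hKs.jump a b').1 ⟨⟨c, hcK⟩, d, hDF hd, hdK⟩
    have : a ∈ S := by rw [hi]; exact hZS _
    exact ((hSm a).1 this).2.1 (mem_verts.2 ⟨_, _, hc⟩)
  -- `verts K ⊆ Kc (s + h)`
  have hKK : verts K ⊆ Kc (s + h) := by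
    intro x hx
    by_contra hxK
    have hZn : ∀ y, y ∉ Kc (s + h) → ∀ i, y ≠ Z i := by
      rintro y hy i rfl
      exact hy (hSK _ (hZS i))
    have hv2 : f2.1 ∉ Kc (s + h) := fun h' => hK2 _ (isV_fst _) (hmonoK H le_rfl _ hsh h')
    have hv2F : f2.1 ∈ verts F := mem_verts.2 ⟨_, _, hf2⟩
    have hxF : x ∈ verts F := verts_mono hKs.sub hx
    have hpath := hK.coconn (s + h) hsh f2.1 hv2F x hxF hv2 hxK
    have : x ∉ verts K := by
      clear hx hxF
      induction hpath with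
      | refl =>
        intro hx
        exact hf2K (hKin _ hx (hZn _ hv2) _ _ hf2)
      | @tail y z' _ hyz ih =>
        obtain ⟨hadj, hz⟩ := hyz
        intro hzK
        have hyK : y ∉ Kc (s + h) := by
          rcases ReflTransGen.cases_tail ‹ReflTransGen _ _ y› with h' | ⟨_, _, h'⟩
          · rw [h']; exact hv2
          · exact h'.2
        apply ih hyK
        obtain ⟨c, hc⟩ := hF.adj_symm hadj
        have := hKin z' hzK (hZn z' hz) y c hc
        exact mem_verts.2 ⟨_, _, hKrot _ _ _ this⟩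
    exact this hx
  -- the distance
  have hex : ∀ x, ∃ n, x ∈ ball F T n ∨ n = N := fun x => ⟨N, Or.inr rfl⟩
  obtain ⟨dn, hdn⟩ : ∃ dn : ℕ → ℕ, dn = fun x => Nat.find (hex x) := ⟨_, rfl⟩
  have hd1 : ∀ x n, x ∈ ball F T n → dn x ≤ n := fun x n hx => by
    rw [hdn]
    exact Nat.find_min' (hex x) (Or.inl hx)
  have hd2 : ∀ x, dn x ≤ N := fun x => by
    rw [hdn]
    exact Nat.find_min' (hex x) (Or.inr rfl)
  have hd3 : ∀ x, dn x < N → x ∈ ball F T (dn x) := fun x hx => by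
    have := Nat.find_spec (hex x)
    rw [hdn] at hx ⊢
    rcases this with h' | h'
    · exact h'
    · simp only at hx
      omega
  have hlip : ∀ x y, Adj F x y → dn y ≤ dn x + 1 := by
    intro x y hxy
    rcases Nat.lt_or_ge (dn x) N with h' | h'
    · exact hd1 y _ (mem_ball_succ.2 (Or.inr ⟨hF.mem_right hxy, x, hd3 x h', hxy⟩))
    · have := hd2 y
      omega
  have hdZ : ∀ i, dn (Z i) = N := by
    intro i
    by_contra h'
    have h5 : dn (Z i) < N := lt_of_le_of_ne (hd2 _) h'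
    have h6 := ball_mono (show dn (Z i) ≤ N - 1 by omega) (hd3 _ h5)
    exact ((hSm _).1 (hZS i)).2.2.2 h6
  have hdC : ∀ i, dn (C i) = 0 := fun i => Nat.le_zero.1 (hd1 _ 0 (hCT i))
  -- vertices of the annulus
  have hA0 : ∀ x ∈ verts (K \ D), x ∈ Kc (s + h) ∧ x ∉ Kc 0 := by
    intro x hx
    refine ⟨hKK (verts_mono sdiff_subset hx), fun h0 => ?_⟩
    obtain ⟨p, q, hpq⟩ := mem_verts.1 hx
    obtain ⟨h5, h6⟩ := mem_sdiff.1 hpq
    exact h6 ((hK0 x h0).2 _ _ (hKs.sub h5))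
  -- potentials
  obtain ⟨π, hπ⟩ := h4 F (verts (K \ D)) (fun x y => 1 + (b : ℤ) * ψ x y) (by
    intro n w hw
    have e : wsum (fun x y => 1 + (b : ℤ) * ψ x y) n w = n + b * wsum ψ n w := by
      unfold wsum
      rw [sum_add_distrib, sum_const, card_range, nsmul_eq_mul, mul_one, mul_sum]
    rw [e]
    have h5 := hCw n w (CWalk.mono hw fun x hx => hA0 x hx)
    have h6 : (0 : ℤ) ≤ b := by positivity
    have h7 := mul_le_mul_of_nonneg_left (neg_abs_le (wsum ψ n w)) h6
    linarith)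
  have hst : ∀ x ∈ verts (K \ D), ∀ y ∈ verts (K \ D), Adj F x y →
      π y - π x - b * ψ x y = 0 ∨ π y - π x - b * ψ x y = 1 ∨ π y - π x - b * ψ x y = -1 := by
    intro x hx y hy hxy
    have h5 := hπ x hx y hy hxy
    have h6 := hπ y hy x hx (hF.adj_symm hxy)
    rw [hψ.anti y x] at h6
    have h7 : (b : ℤ) * -ψ x y = -(b * ψ x y) := by ring
    rw [h7] at h6
    omega
  -- the vertices of `C` are in the annulus
  have hCA : ∀ i, C i ∈ verts (K \ D) := by
    intro i
    have h5 : C i ∈ verts D := by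
      have := (hDv (-i)).1
      rwa [neg_neg] at this
    have h6 : C i ∈ verts (F \ D) := by
      have := (hDv (-i)).2
      rwa [neg_neg] at this
    obtain ⟨p, q, hpq⟩ := mem_verts.1 h6
    obtain ⟨h7, h8⟩ := mem_sdiff.1 hpq
    refine mem_verts.2 ⟨p, q, mem_sdiff.2 ⟨?_, h8⟩⟩
    refine hKin _ (verts_mono hDK h5) ?_ _ _ h7
    intro j e
    have : C i ∈ S := by rw [e]; exact hZS j
    exact ((hSm _).1 this).2.1 h5
  -- the steps along `C`
  have hCstep : ∀ n : ℕ, n < b → π (C ((n : ZMod b) + 1)) - π (C (n : ZMod b)) -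
      b * ψ (C (n : ZMod b)) (C ((n : ZMod b) + 1)) = 1 := by
    have hle : ∀ n ∈ range b, π (C ((n : ZMod b) + 1)) - π (C (n : ZMod b)) -
        b * ψ (C (n : ZMod b)) (C ((n : ZMod b) + 1)) ≤ 1 := by
      intro n _
      rcases hst _ (hCA n) _ (hCA (n + 1)) (hC.adj n) with h' | h' | h' <;> omega
    have hsum : ∑ n ∈ range b, (π (C ((n : ZMod b) + 1)) - π (C (n : ZMod b)) -
        b * ψ (C (n : ZMod b)) (C ((n : ZMod b) + 1))) = ∑ n ∈ range b, (1 : ℤ) := by
      rw [sum_sub_distrib, ← mul_sum, hCs]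
      have e : ∑ n ∈ range b, (π (C ((n : ZMod b) + 1)) - π (C (n : ZMod b))) = 0 := by
        have := sum_range_sub (fun n : ℕ => π (C (n : ZMod b))) b
        push_cast at this
        rw [this]
        simp
      rw [e, sum_const, card_range, nsmul_eq_mul]
      ring
    intro n hn
    exact (sum_eq_sum_iff_of_le hle).1 hsum n (mem_range.2 hn)
  refine ⟨K, fun x => ((π x - π (C 0) : ℤ) : ZMod b), fun x => (dn x : ℤ), ?_,
    fun x hx => (hK0 x hx).2, hKK⟩
  refine ⟨hC, hD, hDK, ⟨z, Z, hZ, hKs, fun i => by rw [hdZ]⟩, ?_, fun i => by rw [hdC]; rfl, ?_,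
    ?_, hCch, ?_⟩
  · -- thC
    have key : ∀ n : ℕ, ((π (C (n : ZMod b)) - π (C 0) : ℤ) : ZMod b) = (n : ZMod b) := by
      intro n
      induction n with
      | zero => simp
      | succ n ih =>
        have h5 := hCstep ((n : ZMod b).val) (ZMod.val_lt _)
        rw [ZMod.natCast_zmod_val] at h5
        have h6 : π (C ((n : ZMod b) + 1)) = π (C (n : ZMod b)) + 1 +
          b * ψ (C (n : ZMod b)) (C ((n : ZMod b) + 1)) := by linarith
        push_cast at ih ⊢
        rw [h6]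
        push_cast
        rw [ZMod.natCast_self, zero_mul, add_zero]
        linear_combination ih
    intro i
    have := key i.val
    rwa [ZMod.natCast_zmod_val] at this
  · -- thA
    intro x y c hxyc
    have hx : x ∈ verts (K \ D) := mem_verts.2 ⟨_, _, hxyc⟩
    have hy : y ∈ verts (K \ D) := mem_verts.2 ⟨_, _, rotC_sdiff hKrot hDrot _ _ _ hxyc⟩
    have hxy : Adj F x y := ⟨c, hKs.sub (mem_sdiff.1 hxyc).1⟩
    have hcast : ∀ e : ℤ, π y - π x - b * ψ x y = e →
        ((π y - π (C 0) : ℤ) : ZMod b) = ((π x - π (C 0) : ℤ) : ZMod b) + (e : ZMod b) := by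
      intro e he
      have h6 : π y = π x + e + b * ψ x y := by linarith
      rw [h6]
      push_cast
      rw [ZMod.natCast_self, zero_mul, add_zero]
      ring
    rcases hst x hx y hy hxy with h' | h' | h'
    · left
      have := hcast _ h'
      simpa using this
    · right; left
      have := hcast _ h'
      simpa using this
    · right; right
      have := hcast _ h'
      show ((π x - π (C 0) : ℤ) : ZMod b) = ((π y - π (C 0) : ℤ) : ZMod b) + 1
      rw [this]
      push_cast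
      ring
  · -- dA
    intro x y c hxyc
    have hxy : Adj F x y := ⟨c, hKs.sub (mem_sdiff.1 hxyc).1⟩
    have h5 := hlip x y hxy
    have h6 := hlip y x (hF.adj_symm hxy)
    rw [abs_le]
    constructor <;> omega
  · -- chK
    have honZ : ∀ x, x ∈ verts K → x ∈ verts (F \ K) → ∃ i, x = Z i := by
      intro x hx hx'
      by_contra hno
      push Not at hno
      obtain ⟨p, q, hpq⟩ := mem_verts.1 hx'
      obtain ⟨h5, h6⟩ := mem_sdiff.1 hpq
      exact h6 (hKin x hx hno _ _ h5)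
    intro x y hx hx' hy hy' hxy
    obtain ⟨i, rfl⟩ := honZ x hx hx'
    obtain ⟨j, rfl⟩ := honZ y hy hy'
    rcases hZch i j hxy with rfl | rfl
    · obtain ⟨⟨c, hc⟩, -⟩ := (hKs.jump (Z (i + 1)) (Z i)).2 ⟨-(i + 1), by simp, by
        congr 1
        ring⟩
      refine ⟨c, Or.inr (mem_sdiff.2 ⟨hc, fun h' => ?_⟩)⟩
      exact ((hSm _).1 (hZS (i + 1))).2.1 (mem_verts.2 ⟨_, _, h'⟩)
    · obtain ⟨⟨c, hc⟩, -⟩ := (hKs.jump (Z (j + 1)) (Z j)).2 ⟨-(j + 1), by simp, by
        congr 1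
        ring⟩
      refine ⟨c, Or.inl (mem_sdiff.2 ⟨hc, fun h' => ?_⟩)⟩
      exact ((hSm _).1 (hZS (j + 1))).2.1 (mem_verts.2 ⟨_, _, h'⟩)

end Pool.Agent.H3.RCR.SC
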