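import Mathlib

/-!
# Project RCR (MP_d95f39_lc): `RCR_k ∈ NP` for every fixed `k`: definitions
-/

open Relation

namespace Pool.Agent.H77.RCR

/-- A closed oriented triangulated surface on the vertex type `V`, given by its oriented triangles
`Tri a b c`. Every directed edge has exactly one triangle on its left, so the complex is simple. -/
structure Surf (V : Type) where
  Tri : V → V → V → Prop
  cyc : ∀ {a b c}, Tri a b c → Tri b c a
  ne : ∀ {a b c}, Tri a b c → a ≠ b
  uniq : ∀ {a b c d}, Tri a b c → Tri a b d → c = d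
  closed : ∀ {a b c}, Tri a b c → ∃ d, Tri b a d

variable {V V' V'' : Type}

/-- adjacency -/
def Surf.Adj (T : Surf V) (a b : V) : Prop := ∃ c, T.Tri a b c

/-- A simple triangulated sphere: every vertex is used, the vertex links are single cycles, the
graph is connected, and every cocycle with coefficients in any abelian group is exact. -/
structure Surf.IsSphere (T : Surf V) : Prop where
  used : ∀ v, ∃ b, T.Adj v b
  link : ∀ v b b', T.Adj v b → T.Adj v b' → ReflTransGen (fun x y => T.Tri v x y) b b'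
  conn : ∀ a b, ReflTransGen T.Adj a b
  coh : ∀ (A : Type) [AddCommGroup A] (c : V → V → A),
    (∀ a b, T.Adj a b → c b a = - c a b) →
    (∀ a b d, T.Tri a b d → c a b + c b d + c d a = 0) →
    ∃ g : V → A, ∀ a b, T.Adj a b → c a b = g b - g a

/-- twice the signed area of the triangle `p q r` -/
def det (p q r : ℝ × ℝ) : ℝ := (q.1 - p.1) * (r.2 - p.2) - (q.2 - p.2) * (r.1 - p.1)

/-- the ordered triple `t` is a cyclic rotation of `o` -/
def IsRot (a b c : V) (o : V × V × V) : Prop :=
  (a, b, c) = o ∨ (b, c, a) = o ∨ (c, a, b) = o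

/-- `p` is a straight-line drawing of `T` with outer face `o` (`o` is an oriented triangle of `T`;
in the plane it is traversed clockwise). -/
structure IsDrawn (T : Surf V) (o : V × V × V) (p : V → ℝ × ℝ) : Prop where
  outer : T.Tri o.1 o.2.1 o.2.2
  pos : ∀ a b c, T.Tri a b c → ¬ IsRot a b c o → 0 < det (p a) (p b) (p c)

/-- A rooted drawing: `w` roots `ρ`, the first three are the outer triangle (as oriented in `T`),
and for every constraint `(i,j,k)` the root `j` lies strictly between the roots `i` and `k`. -/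
def Drawable {w : ℕ} (T : Surf V) (ρ : Fin (w + 3) → V)
    (C : Finset (Fin (w + 3) × Fin (w + 3) × Fin (w + 3))) : Prop :=
  ∃ p : V → ℝ × ℝ, IsDrawn T (ρ 0, ρ 1, ρ 2) p ∧
    ∀ t ∈ C, p (ρ t.2.1) ∈ openSegment ℝ (p (ρ t.1)) (p (ρ t.2.2))

/-- a set of vertices is connected -/
def ConnOn (R : V → V → Prop) (X : Set V) : Prop :=
  ∀ a ∈ X, ∀ b ∈ X, ReflTransGen (fun x y => R x y ∧ x ∈ X ∧ y ∈ X) a b

/-- `φ` exhibits `T'` as a quotient of `T` with connected fibres: simplicial, and over every
triangle of `T'` there is exactly one triangle of `T` (with the right orientation) and none with the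
wrong orientation. -/
structure IsQuot (T : Surf V) (T' : Surf V') (φ : V → V') : Prop where
  surj : Function.Surjective φ
  fib : ∀ x, ConnOn T.Adj (φ ⁻¹' {x})
  simp : ∀ a b c, T.Tri a b c →
    φ a = φ b ∨ φ b = φ c ∨ φ c = φ a ∨ T'.Tri (φ a) (φ b) (φ c)
  lift : ∀ x y z, T'.Tri x y z → ∃ a b c, T.Tri a b c ∧ φ a = x ∧ φ b = y ∧ φ c = z
  inj : ∀ a b c a' b' c', T.Tri a b c → T.Tri a' b' c' → φ a ≠ φ b → φ b ≠ φ c → φ c ≠ φ a →
    φ a = φ a' → φ b = φ b' → φ c = φ c' → a = a' ∧ b = b' ∧ c = c'

end Pool.Agent.H77.RCR
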