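import Pool.Agent.H77.RCR.Walk

/-!
# Project RCR, module SC4: potentials
-/

namespace Pool.Agent.H3.RCR.SC

open Finset

theorem sc4 : SC4Stmt := by
  classical
  intro F R c hc
  -- the sums of walks ending at `y`
  set A : ℕ → Set ℤ := fun y => {s | ∃ n w, OWalk F {x | x ∈ R} n w ∧ w n = y ∧ wsum c n w = s}
    with hA
  set M : ℤ := ∑ x ∈ R, ∑ y ∈ R, |c x y| with hM
  have hM0 : 0 ≤ M := sum_nonneg fun x _ => sum_nonneg fun y _ => abs_nonneg _
  have hle : ∀ x ∈ R, ∀ y ∈ R, -M ≤ c x y := by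
    intro x hx y hy
    have h1 : |c x y| ≤ ∑ y ∈ R, |c x y| :=
      single_le_sum (f := fun y => |c x y|) (fun y _ => abs_nonneg _) hy
    have h2 : ∑ y ∈ R, |c x y| ≤ M :=
      single_le_sum (f := fun x => ∑ y ∈ R, |c x y|)
        (fun x _ => sum_nonneg fun y _ => abs_nonneg _) hx
    have := neg_abs_le (c x y)
    linarith
  have hbd : ∀ n w, OWalk F {x | x ∈ R} n w → -((R.card : ℤ) * M) ≤ wsum c n w := by
    intro n
    induction n using Nat.strong_induction_on with
    | _ n ih =>
      intro w hw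
      by_cases hn : R.card ≤ n
      · obtain ⟨i, j, hij, hjn, h⟩ := repeat_of_long (R := R) hw.mem hn
        rw [wsum_cut c hij.le hjn h]
        have h1 := ih (n - (j - i)) (by omega) _ (owalk_cut hw hij.le hjn h)
        have h2 := hc _ _ (cwalk_mid hw hij.le hjn h)
        linarith
      · have h1 : ∑ i ∈ range n, (-M) ≤ wsum c n w := by
          unfold wsum
          refine sum_le_sum fun i hi => ?_
          rw [mem_range] at hi
          exact hle _ (hw.mem i hi.le) _ (hw.mem (i + 1) hi)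
        rw [sum_const, card_range, nsmul_eq_mul] at h1
        have h2 : (n : ℤ) ≤ (R.card : ℤ) := by exact_mod_cast (not_le.1 hn).le
        nlinarith
  have hbdd : ∀ y, BddBelow (A y) := fun y => ⟨-((R.card : ℤ) * M), by
    rintro s ⟨n, w, hw, -, rfl⟩
    exact hbd n w hw⟩
  have hne : ∀ y ∈ R, (A y).Nonempty := fun y hy =>
    ⟨0, 0, fun _ => y, ⟨fun i hi => absurd hi (Nat.not_lt_zero _), fun _ _ => hy⟩, rfl, rfl⟩
  refine ⟨fun y => sInf (A y), fun x hx y hy hxy => ?_⟩
  obtain ⟨n, w, hw, hwn, hs⟩ := Int.csInf_mem (hne x hx) (hbdd x)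
  refine csInf_le (hbdd y) ⟨n + 1, fun k => if k ≤ n then w k else y, ⟨?_, ?_⟩, ?_, ?_⟩
  · intro i hi
    rcases Nat.lt_succ_iff_lt_or_eq.1 hi with h | rfl
    · rw [if_pos h.le, if_pos (Nat.succ_le_of_lt h)]
      exact hw.adj i h
    · rw [if_pos le_rfl, if_neg (by omega), hwn]
      exact hxy
  · intro i _
    show (if i ≤ n then w i else y) ∈ R
    split_ifs with h
    · exact hw.mem i h
    · exact hy
  · simp
  · show _ = sInf (A x) + c x y
    rw [← hs]
    have e : wsum c (n + 1) (fun k => if k ≤ n then w k else y) =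
        wsum c n (fun k => if k ≤ n then w k else y) + c x y := by
      unfold wsum
      rw [sum_range_succ]
      simp [hwn]
    rw [e]
    congr 1
    exact wsum_congr fun i hi => if_pos hi

end Pool.Agent.H3.RCR.SC
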