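import Pool.Agent.H77.RCR.Defs

/-!
# Project RCR: statements of part A (combinatorial topology of triangulated spheres)
-/

open Relation

namespace Pool.Agent.H77.RCR

variable {V V' V'' : Type}

lemma Surf.adj_symm (T : Surf V) {a b : V} (h : T.Adj a b) : T.Adj b a := by
  obtain ⟨c, hc⟩ := h
  exact T.closed hc

lemma Surf.adj_ne (T : Surf V) {a b : V} (h : T.Adj a b) : a ≠ b := by
  obtain ⟨c, hc⟩ := h
  exact T.ne hc

/-- the graph of a surface -/
def Surf.graph (T : Surf V) : SimpleGraph V where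
  Adj := T.Adj
  symm := ⟨fun _ _ h => T.adj_symm h⟩
  loopless := ⟨fun _ h => T.adj_ne h rfl⟩

/-- the number of times the walk `w` runs from `a` to `b` -/
noncomputable def trav {G : SimpleGraph V} {u v : V} (w : G.Walk u v) (a b : V) : ℤ := by
  classical exact ((w.darts.map (fun d => (d.fst, d.snd))).count (a, b) : ℤ)

/-- A1. The difference of two triangles is a coboundary. -/
def A1 : Prop := ∀ (V : Type) [Fintype V] (T : Surf V), T.IsSphere →
  ∀ x y z x' y' z' : V, T.Tri x y z → T.Tri x' y' z' → ¬ IsRot x y z (x', y', z') →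
  ∃ θ : V → V → ℤ, (∀ a b, θ b a = - θ a b) ∧
    θ x y + θ y z + θ z x = 1 ∧ θ x' y' + θ y' z' + θ z' x' = -1 ∧
    ∀ a b c, T.Tri a b c → ¬ IsRot a b c (x, y, z) → ¬ IsRot a b c (x', y', z') →
      θ a b + θ b c + θ c a = 0

/-- A2. Winding numbers of a closed walk. -/
def A2 : Prop := ∀ (V : Type) [Fintype V] (T : Surf V), T.IsSphere →
  ∀ (u : V) (w : T.graph.Walk u u), ∃ n : V → V → V → ℤ,
    (∀ a b c, T.Tri a b c → n b c a = n a b c) ∧
    ∀ a b c d, T.Tri a b c → T.Tri b a d → trav w a b - trav w b a = n a b c - n b a d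

/-- A3. The Jordan curve theorem: `side a b c` says that the triangle is on the left. -/
def A3 : Prop := ∀ (V : Type) [Fintype V] (T : Surf V), T.IsSphere →
  ∀ (u : V) (w : T.graph.Walk u u), w.IsCycle → ∃ side : V → V → V → Prop,
    (∀ a b c, T.Tri a b c → (side a b c ↔ side b c a)) ∧
    (∀ a b c d, T.Tri a b c → T.Tri b a d → s(a, b) ∉ w.edges → (side a b c ↔ side b a d)) ∧
    ∀ d ∈ w.darts, ∀ c e, T.Tri d.fst d.snd c → T.Tri d.snd d.fst e →
      side d.fst d.snd c ∧ ¬ side d.snd d.fst e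

/-- A4. Three disjoint connected sets have at most one positive triangle. -/
def A4 : Prop := ∀ (V : Type) [Fintype V] (T : Surf V), T.IsSphere → ∀ X Y Z : Set V,
  Disjoint X Y → Disjoint Y Z → Disjoint X Z →
  ConnOn T.Adj X → ConnOn T.Adj Y → ConnOn T.Adj Z →
  ∀ a b c a' b' c', a ∈ X → b ∈ Y → c ∈ Z → a' ∈ X → b' ∈ Y → c' ∈ Z →
    T.Tri a b c → T.Tri a' b' c' → a = a' ∧ b = b' ∧ c = c'

/-- contact darts from `O` to `K` and their successor -/
def Surf.next (T : Surf V) (O K : Set V) (e f : V × V) : Prop :=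
  e.1 ∈ O ∧ e.2 ∈ K ∧ f.1 ∈ O ∧ f.2 ∈ K ∧
    ((e.1 = f.1 ∧ T.Tri e.1 e.2 f.2) ∨ (e.2 = f.2 ∧ T.Tri e.1 e.2 f.1))

/-- A5. The contact darts between a connected set and a component of its complement form a single
cycle. -/
def A5 : Prop := ∀ (V : Type) [Fintype V] (T : Surf V), T.IsSphere → ∀ O K : Set V,
  Disjoint O K → ConnOn T.Adj O → ConnOn T.Adj K → (∀ a ∈ K, ∀ b, T.Adj a b → b ∈ K ∨ b ∈ O) →
  ∀ e f : V × V, e.1 ∈ O → e.2 ∈ K → T.Adj e.1 e.2 → f.1 ∈ O → f.2 ∈ K → T.Adj f.1 f.2 →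
    ReflTransGen (T.next O K) e f

/-- A6. A sphere with at least four vertices is 3-connected. -/
def A6 : Prop := ∀ (V : Type) [Fintype V] (T : Surf V), T.IsSphere → 4 ≤ Fintype.card V →
  ∀ x y : V, ConnOn T.Adj {v | v ≠ x ∧ v ≠ y}

/-- A7. The complement of a connected set is simply connected. -/
def A7 : Prop := ∀ (V : Type) [Fintype V] (T : Surf V), T.IsSphere → ∀ O : Set V, O.Nonempty →
  ConnOn T.Adj O → ∀ (A : Type) [AddCommGroup A] (c : V → V → A),
    (∀ a b, a ∉ O → b ∉ O → T.Adj a b → c b a = - c a b) →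
    (∀ a b d, a ∉ O → b ∉ O → d ∉ O → T.Tri a b d → c a b + c b d + c d a = 0) →
    ∃ g : V → A, ∀ a b, a ∉ O → b ∉ O → T.Adj a b → c a b = g b - g a

/-- A8. The triangles are connected through edges. -/
def A8 : Prop := ∀ (V : Type) [Fintype V] (T : Surf V), T.IsSphere →
  ∀ P : V → V → V → Prop, (∀ a b c, T.Tri a b c → P a b c → P b c a) →
    (∀ a b c d, T.Tri a b c → T.Tri b a d → P a b c → P b a d) →
    ∀ x y z x' y' z', T.Tri x y z → T.Tri x' y' z' → P x y z → P x' y' z'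

/-- weakly simplicial maps: non-degenerate triangles go to faces, with any orientation -/
def WSimp (T : Surf V) (T' : Surf V') (φ : V → V') : Prop :=
  ∀ a b c, T.Tri a b c →
    φ a = φ b ∨ φ b = φ c ∨ φ c = φ a ∨ T'.Tri (φ a) (φ b) (φ c) ∨ T'.Tri (φ a) (φ c) (φ b)

/-- the degree over the oriented face `x y z` -/
noncomputable def degAt (T : Surf V) (φ : V → V') (x y z : V') : ℤ :=
  ({t : V × V × V | T.Tri t.1 t.2.1 t.2.2 ∧ φ t.1 = x ∧ φ t.2.1 = y ∧ φ t.2.2 = z}.ncard : ℤ)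
    - ({t : V × V × V | T.Tri t.1 t.2.1 t.2.2 ∧ φ t.1 = x ∧ φ t.2.1 = z ∧ φ t.2.2 = y}.ncard : ℤ)

/-- A9. The degree is the same over all faces. -/
def A9 : Prop := ∀ (V V' : Type) [Fintype V] [Fintype V'] (T : Surf V) (T' : Surf V'),
  T'.IsSphere → ∀ φ : V → V', WSimp T T' φ → ∀ x y z x' y' z',
    T'.Tri x y z → ¬ T'.Tri x z y → T'.Tri x' y' z' → degAt T φ x y z = degAt T φ x' y' z'

/-- A10. Quotients with connected fibres whose complements are connected: if the image triangles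
satisfy uniqueness then the image is a sphere. -/
def A10 : Prop := ∀ (V V' : Type) [Fintype V] [Fintype V'] (T : Surf V), T.IsSphere →
  ∀ φ : V → V', Function.Surjective φ → (∀ x, ConnOn T.Adj (φ ⁻¹' {x})) →
    (∀ x, ConnOn T.Adj (φ ⁻¹' {x})ᶜ) → 3 ≤ Fintype.card V' →
    (∀ a b c a' b' c', T.Tri a b c → T.Tri a' b' c' → φ a = φ a' → φ b = φ b' → φ a ≠ φ b →
      φ c ≠ φ a → φ c ≠ φ b → φ c' ≠ φ a → φ c' ≠ φ b → φ c = φ c') →
    ∃ T' : Surf V', T'.IsSphere ∧ IsQuot T T' φ ∧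
      ∀ x y z, T'.Tri x y z ↔
        x ≠ y ∧ y ≠ z ∧ z ≠ x ∧ ∃ a b c, T.Tri a b c ∧ φ a = x ∧ φ b = y ∧ φ c = z

/-- A11. Every vertex of a sphere with at least four vertices has a contractible edge. -/
def A11 : Prop := ∀ (V : Type) [Fintype V] (T : Surf V), T.IsSphere → 4 ≤ Fintype.card V →
  ∀ u : V, ∃ v, T.Adj u v ∧ ∀ x, T.Adj u x → T.Adj v x → T.Tri u v x ∨ T.Tri v u x

/-- the map which merges `u` into `v` -/
noncomputable def merge (u v : V) : V → V := by
  classical exact fun x => if x = u then v else x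

/-- A12. Refinement of a quotient by elementary contractions: some edge inside a fibre satisfies the
link condition. -/
def A12 : Prop := ∀ (V V' : Type) [Fintype V] [Fintype V'] (T : Surf V) (T' : Surf V'),
  T.IsSphere → T'.IsSphere → 3 ≤ Fintype.card V' → ∀ φ : V → V', IsQuot T T' φ →
    ∀ u v : V, u ≠ v → φ u = φ v → ∃ u' v' : V, T.Adj u' v' ∧ φ u' = φ v' ∧
      ∀ x, T.Adj u' x → T.Adj v' x → T.Tri u' v' x ∨ T.Tri v' u' x

/-- A13. An elementary contraction of a sphere is a sphere. -/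
def A13 : Prop := ∀ (V : Type) [Fintype V] (T : Surf V), T.IsSphere → 4 ≤ Fintype.card V →
  ∀ u v : V, T.Adj u v → (∀ x, T.Adj u x → T.Adj v x → T.Tri u v x ∨ T.Tri v u x) →
    ∃ T' : Surf {x : V // x ≠ u}, T'.IsSphere ∧
      ∀ x y z : {x : V // x ≠ u}, T'.Tri x y z ↔ x ≠ y ∧ y ≠ z ∧ z ≠ x ∧
        ∃ a b c, T.Tri a b c ∧ merge u v a = x ∧ merge u v b = y ∧ merge u v c = z

end Pool.Agent.H77.RCR
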