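import Pool.Agent.H77.RCR.StA

/-!
# Project RCR: statements of part B (drawings)
-/

open Relation

namespace Pool.Agent.H77.RCR

variable {V V' V'' : Type}

/-- the open positively oriented triangle -/
def InTri (a b c q : ℝ × ℝ) : Prop := 0 < det a b q ∧ 0 < det b c q ∧ 0 < det c a q

/-- B0. Open inner triangles are pairwise disjoint and contained in the outer one, and the closed
inner triangles cover the open outer triangle. No sphere axioms are needed. -/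
def B0 : Prop := ∀ (V : Type) [Fintype V] (T : Surf V) (o : V × V × V) (p : V → ℝ × ℝ),
  IsDrawn T o p →
    det (p o.1) (p o.2.1) (p o.2.2) < 0 ∧
    (∀ a b c a' b' c' q, T.Tri a b c → T.Tri a' b' c' → ¬ IsRot a b c o → ¬ IsRot a' b' c' o →
      InTri (p a) (p b) (p c) q → InTri (p a') (p b') (p c') q → IsRot a b c (a', b', c')) ∧
    (∀ a b c q, T.Tri a b c → ¬ IsRot a b c o → InTri (p a) (p b) (p c) q →
      InTri (p o.1) (p o.2.2) (p o.2.1) q) ∧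
    (∀ q, InTri (p o.1) (p o.2.2) (p o.2.1) q → ∃ a b c, T.Tri a b c ∧ ¬ IsRot a b c o ∧
      0 ≤ det (p a) (p b) q ∧ 0 ≤ det (p b) (p c) q ∧ 0 ≤ det (p c) (p a) q)

/-- B1. Un-contraction of one edge `u v`, `u` not on the outer face; plain surfaces. -/
def B1 : Prop := ∀ (V : Type) [Fintype V] [DecidableEq V] (T : Surf V) (o : V × V × V) (u v : V)
  (p : V → ℝ × ℝ), T.Tri o.1 o.2.1 o.2.2 → u ≠ o.1 → u ≠ o.2.1 → u ≠ o.2.2 → T.Adj u v →
  (∀ x, T.Adj u x → T.Adj v x → T.Tri u v x ∨ T.Tri v u x) →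
  (∀ a b c, T.Tri a b c → ¬ IsRot a b c o →
    merge u v a ≠ merge u v b → merge u v b ≠ merge u v c → merge u v c ≠ merge u v a →
    0 < det (p (merge u v a)) (p (merge u v b)) (p (merge u v c))) →
  ∃ q : ℝ × ℝ, IsDrawn T o (Function.update p u q)

/-- B2. A drawing is a plane straight-line embedding. -/
def B2 : Prop := ∀ (V : Type) [Fintype V] (T : Surf V) (o : V × V × V) (p : V → ℝ × ℝ),
  IsDrawn T o p → (∀ v, ∃ b, T.Adj v b) →
    Function.Injective p ∧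
    (∀ a b c, T.Adj a b → c ≠ a → c ≠ b → p c ∉ segment ℝ (p a) (p b)) ∧
    (∀ a b c d, T.Adj a b → T.Adj c d → a ≠ c → a ≠ d → b ≠ c → b ≠ d →
      Disjoint (segment ℝ (p a) (p b)) (segment ℝ (p c) (p d))) ∧
    (∀ a b c d, T.Tri a b c → ¬ IsRot a b c o → d ≠ a → d ≠ b → d ≠ c →
      ¬ (0 ≤ det (p a) (p b) (p d) ∧ 0 ≤ det (p b) (p c) (p d) ∧ 0 ≤ det (p c) (p a) (p d))) ∧
    ∀ d, d ≠ o.1 → d ≠ o.2.1 → d ≠ o.2.2 → InTri (p o.1) (p o.2.2) (p o.2.1) (p d)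

/-- B3. Fary: every sphere is drawable with any outer face (no roots, no constraints). -/
def B3 : Prop := ∀ (V : Type) [Fintype V] (T : Surf V), T.IsSphere → ∀ o : V × V × V,
  T.Tri o.1 o.2.1 o.2.2 → ∃ p : V → ℝ × ℝ, IsDrawn T o p

/-- B4. Constrained triangulation: a plane straight-line graph inside a triangle extends to a drawn
sphere. -/
def B4 : Prop := ∀ (V : Type) [Fintype V] (p : V → ℝ × ℝ) (E : V → V → Prop) (o : V × V × V),
  Function.Injective p → (∀ a b, E a b → E b a) → (∀ a, ¬ E a a) →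
  (∀ a b c, E a b → c ≠ a → c ≠ b → p c ∉ segment ℝ (p a) (p b)) →
  (∀ a b c d, E a b → E c d → a ≠ c → a ≠ d → b ≠ c → b ≠ d →
    Disjoint (segment ℝ (p a) (p b)) (segment ℝ (p c) (p d))) →
  E o.1 o.2.1 → E o.2.1 o.2.2 → E o.2.2 o.1 →
  det (p o.1) (p o.2.1) (p o.2.2) < 0 →
  (∀ v, v ≠ o.1 → v ≠ o.2.1 → v ≠ o.2.2 → InTri (p o.1) (p o.2.2) (p o.2.1) (p v)) →
  ∃ T : Surf V, T.IsSphere ∧ IsDrawn T o p ∧ ∀ a b, E a b → T.Adj a b

/-- B5. Un-contraction of a quotient of spheres. -/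
def B5 : Prop := ∀ (V V' : Type) [Fintype V] [Fintype V'] (T : Surf V) (T' : Surf V')
  (φ : V → V'), T.IsSphere → T'.IsSphere → IsQuot T T' φ → ∀ (w : ℕ) (ρ : Fin (w + 3) → V) C,
    T.Tri (ρ 0) (ρ 1) (ρ 2) → Function.Injective (φ ∘ ρ) → Drawable T' (φ ∘ ρ) C → Drawable T ρ C

/-- B6. Removal of a set `X` of vertices and retriangulation, keeping all edges and triangles
between the remaining vertices. -/
def B6 : Prop := ∀ (V : Type) [Fintype V] (T : Surf V) (o : V × V × V) (p : V → ℝ × ℝ)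
  (X : Set V), T.IsSphere → IsDrawn T o p → ∀ (h1 : o.1 ∉ X) (h2 : o.2.1 ∉ X) (h3 : o.2.2 ∉ X),
  ∃ T' : Surf {x : V // x ∉ X}, T'.IsSphere ∧
    IsDrawn T' (⟨o.1, h1⟩, ⟨o.2.1, h2⟩, ⟨o.2.2, h3⟩) (fun x => p x.1) ∧
    (∀ a b : {x : V // x ∉ X}, T.Adj a.1 b.1 → T'.Adj a b) ∧
    (∀ a b c : {x : V // x ∉ X}, T.Tri a.1 b.1 c.1 → T'.Tri a b c)

/-- B7. Completion by two new vertices `t = some none`, `s = none`: `Y` a nonempty set of vertices
not on the outer face; the old vertices keep their positions, the new outer face is `z t s` for some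
`z` in `Y`; all edges and triangles inside `Y` are kept. -/
def B7 : Prop := ∀ (V : Type) [Fintype V] (T : Surf V) (o : V × V × V) (p : V → ℝ × ℝ)
  (Y : Set V), T.IsSphere → IsDrawn T o p → o.1 ∉ Y → o.2.1 ∉ Y → o.2.2 ∉ Y → Y.Nonempty →
  ∃ (T' : Surf (Option (Option Y))) (p' : Option (Option Y) → ℝ × ℝ) (z : Y), T'.IsSphere ∧
    IsDrawn T' (some (some z), some none, none) p' ∧ (∀ y : Y, p' (some (some y)) = p y.1) ∧
    (∀ a b : Y, T.Adj a.1 b.1 → T'.Adj (some (some a)) (some (some b))) ∧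
    (∀ a b c : Y, T.Tri a.1 b.1 c.1 → T'.Tri (some (some a)) (some (some b)) (some (some c)))

/-- B8. Insertion of a new vertex in an inner face. -/
def B8 : Prop := ∀ (V : Type) [Fintype V] (T : Surf V) (o : V × V × V) (p : V → ℝ × ℝ)
  (a b c : V), T.IsSphere → IsDrawn T o p → T.Tri a b c → ¬ IsRot a b c o →
  ∃ (T' : Surf (Option V)) (p' : Option V → ℝ × ℝ), T'.IsSphere ∧
    IsDrawn T' (some o.1, some o.2.1, some o.2.2) p' ∧ (∀ v, p' (some v) = p v) ∧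
    T'.Tri (some a) (some b) none ∧ T'.Tri (some b) (some c) none ∧ T'.Tri (some c) (some a) none ∧
    ∀ x y z, T.Tri x y z → ¬ IsRot x y z (a, b, c) → T'.Tri (some x) (some y) (some z)

/-- B9. Gluing two drawings along a triangle `x₁ x₂ x₃` by an affine map. -/
def B9 : Prop := ∀ (V : Type) [Fintype V] (T : Surf V) (o : V × V × V) (x₁ x₂ x₃ : V)
  (A B : Set V) (pA pB : V → ℝ × ℝ), T.Tri o.1 o.2.1 o.2.2 →
  x₁ ∈ A → x₂ ∈ A → x₃ ∈ A → x₁ ∈ B → x₂ ∈ B → x₃ ∈ B →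
  (∀ v, v ∈ A → v ∈ B → v = x₁ ∨ v = x₂ ∨ v = x₃) →
  0 < det (pA x₁) (pA x₂) (pA x₃) * det (pB x₁) (pB x₂) (pB x₃) →
  (∀ a b c, T.Tri a b c →
    (a ∈ A ∧ b ∈ A ∧ c ∈ A ∧ (¬ IsRot a b c o → 0 < det (pA a) (pA b) (pA c))) ∨
    (a ∈ B ∧ b ∈ B ∧ c ∈ B ∧ (¬ IsRot a b c o → 0 < det (pB a) (pB b) (pB c)))) →
  ∃ p : V → ℝ × ℝ, IsDrawn T o p ∧
    (∀ a ∈ A, ∀ b ∈ A, ∀ c ∈ A, pA b ∈ openSegment ℝ (pA a) (pA c) →
      p b ∈ openSegment ℝ (p a) (p c)) ∧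
    (∀ a ∈ B, ∀ b ∈ B, ∀ c ∈ B, pB b ∈ openSegment ℝ (pB a) (pB c) →
      p b ∈ openSegment ℝ (p a) (p c))

end Pool.Agent.H77.RCR
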