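import Pool.Agent.H77.RCR.StB

/-!
# Project RCR: statements of parts TD (tree duality), O (outerplanar targets), D (discs), L (Theorem
L')
-/

open Relation

namespace Pool.Agent.H77.RCR

variable {V V' V'' : Type}

/-! ### Tree duality -/

/-- Iterated arc consistency for reflexive homomorphisms from the graph `G` on `W` to the graph `D`
on `X`, extending the partial map `fix`. -/
def lam {W X : Type} (G : W → W → Prop) (D : X → X → Prop) (fix : W → Option X) :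
    ℕ → W → Set X
  | 0, x => {c | ∀ y, fix x = some y → c = y}
  | n + 1, x => {c | c ∈ lam G D fix n x ∧ ∀ y, G x y → ∃ c' ∈ lam G D fix n y, c = c' ∨ D c c'}

/-- reflexive homomorphism extending `fix` -/
def IsHomExt {W X : Type} (G : W → W → Prop) (D : X → X → Prop) (fix : W → Option X)
    (f : W → X) : Prop :=
  (∀ x y, fix x = some y → f x = y) ∧ ∀ x y, G x y → f x = f y ∨ D (f x) (f y)

/-- a connected graph with a construction order in which the earlier neighbours of every vertex form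
a clique -/
structure Elim {X : Type} (D : X → X → Prop) (r : X → ℕ) : Prop where
  symm : ∀ x y, D x y → D y x
  irrefl : ∀ x, ¬ D x x
  inj : Function.Injective r
  clique : ∀ x y z, D x y → D x z → r y < r x → r z < r x → y ≠ z → D y z
  conn : ∀ x, (∃ y, r y < r x) → ∃ y, D x y ∧ r y < r x

/-- TD1. Stable nonempty lists give a homomorphism (take the minimum of every list). -/
def TD1 : Prop := ∀ (X W : Type) [Fintype X] [Fintype W] (D : X → X → Prop) (r : X → ℕ),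
  Elim D r → ∀ (G : W → W → Prop), (∀ a b, G a b → G b a) → ∀ (fix : W → Option X) (n : ℕ),
    (∀ x, (lam G D fix n x).Nonempty) → (∀ x, lam G D fix (n + 1) x = lam G D fix n x) →
    ∃ f, IsHomExt G D fix f

/-- TD2. Bounded depth. -/
def TD2 : Prop := ∀ (X W : Type) [Fintype X] [Fintype W] (D : X → X → Prop) (r : X → ℕ),
  Elim D r → ∀ (G : W → W → Prop), (∀ a b, G a b → G b a) → ∀ (fix : W → Option X),
    (∀ x, (lam G D fix (4 * Fintype.card X) x).Nonempty) → ∀ n x, (lam G D fix n x).Nonempty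

/-- TD3. Bounded obstructions. -/
def TD3 : Prop := ∀ (X W : Type) [Fintype X] [Fintype W] (D : X → X → Prop),
  ∀ (G : W → W → Prop), (∀ a b, G a b → G b a) → ∀ (fix : W → Option X) (n : ℕ) (x : W) (c : X),
    c ∉ lam G D fix n x → ∃ H : W → W → Prop, (∀ a b, H a b → H b a) ∧ (∀ a b, H a b → G a b) ∧
      {e : W × W | H e.1 e.2}.ncard ≤ 2 * (Fintype.card X + 1) ^ n ∧
      (∀ a b, H a b → ReflTransGen H x a) ∧ c ∉ lam H D fix n x

/-- TD4. Either a homomorphism or a bounded connected obstruction. -/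
def TD4 : Prop := ∀ (X W : Type) [Fintype X] [Fintype W] (D : X → X → Prop) (r : X → ℕ),
  Elim D r → ∀ (G : W → W → Prop), (∀ a b, G a b → G b a) → ∀ (fix : W → Option X),
    (∃ f, IsHomExt G D fix f) ∨ ∃ H : W → W → Prop, (∀ a b, H a b → H b a) ∧
      (∀ a b, H a b → G a b) ∧
      {e : W × W | H e.1 e.2}.ncard ≤ Fintype.card X *
        (2 * (Fintype.card X + 1) ^ (4 * Fintype.card X)) ∧
      (∀ a b a' b', H a b → H a' b' → ReflTransGen H a a') ∧ ¬ ∃ f, IsHomExt H D fix f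

/-! ### Outerplanar spheres -/

/-- a sphere with a vertex adjacent to all the others -/
def IsOut (Δ : Surf V) (i : V) : Prop := Δ.IsSphere ∧ ∀ x, x ≠ i → Δ.Adj i x

/-- O1. Ears. -/
def O1 : Prop := ∀ (V : Type) [Fintype V] (Δ : Surf V) (i : V), IsOut Δ i →
  5 ≤ Fintype.card V → ∃ c a b n : V, c ≠ i ∧ n ≠ i ∧ n ≠ c ∧ Δ.Tri i a c ∧ Δ.Tri i c b ∧
    Δ.Tri c a b ∧ Δ.Tri b a n ∧ (∀ x, Δ.Adj c x ↔ x = i ∨ x = a ∨ x = b) ∧
    ∃ Δ' : Surf {x : V // x ≠ c}, Δ'.IsSphere ∧ (∀ h : i ≠ c, ∀ x, x ≠ ⟨i, h⟩ → Δ'.Adj ⟨i, h⟩ x) ∧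
      ∀ x y z : {x : V // x ≠ c}, Δ'.Tri x y z ↔ Δ.Tri x.1 y.1 z.1 ∨
        IsRot x.1 y.1 z.1 (i, a, b)

/-- O2. Construction orders. -/
def O2 : Prop := ∀ (V : Type) [Fintype V] (Δ : Surf V) (i : V), IsOut Δ i →
  4 ≤ Fintype.card V →
    ∃ r : {x : V // x ≠ i} → ℕ, Elim (fun x y : {x : V // x ≠ i} => Δ.Adj x.1 y.1) r

/-- O3. Cliques are faces. -/
def O3 : Prop := ∀ (V : Type) [Fintype V] (Δ : Surf V) (i : V), IsOut Δ i →
  ∀ a b c, a ≠ i → b ≠ i → c ≠ i → Δ.Adj a b → Δ.Adj b c → Δ.Adj c a →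
    Δ.Tri a b c ∨ Δ.Tri a c b

/-! ### Faces of subgraphs -/

/-- one step between ordered triangles: rotate, or cross an edge which is not in `H` -/
def Surf.fstep (T : Surf V) (H : V → V → Prop) (s t : V × V × V) : Prop :=
  T.Tri s.1 s.2.1 s.2.2 ∧ T.Tri t.1 t.2.1 t.2.2 ∧
    ((t.1 = s.2.1 ∧ t.2.1 = s.2.2 ∧ t.2.2 = s.1) ∨
      (t.1 = s.2.1 ∧ t.2.1 = s.1 ∧ ¬ H s.1 s.2.1 ∧ ¬ H s.2.1 s.1))

/-- the ordered triangles in the same face of `H` -/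
def Surf.SameFace (T : Surf V) (H : V → V → Prop) : V × V × V → V × V × V → Prop :=
  ReflTransGen (T.fstep H)

/-- boundary darts of the face of `H` containing `t` -/
def Surf.bdarts (T : Surf V) (H : V → V → Prop) (t : V × V × V) : Set (V × V) :=
  {e | H e.1 e.2 ∧ ∃ c, T.Tri e.1 e.2 c ∧ T.SameFace H t (e.1, e.2, c)}

/-- D3. Either a retraction onto the link of `i` or a short enclosing cycle. -/
def D3 : Prop := ∀ (V : Type) [Fintype V] (M : Surf V), M.IsSphere → ∀ (i : V)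
  (H : V → V → Prop), (∀ a b, H a b → H b a) → (∀ a b, H a b → M.Adj a b) →
  (∀ a b, H a b → a ≠ i) → (∀ a b, M.Tri i a b → H a b) → ∀ x y z, M.Tri x y z →
  x ≠ i → y ≠ i → z ≠ i →
  (∃ f : V → V, (∀ v, M.Adj i v → f v = v) ∧ (∀ a b, H a b → M.Adj i (f a)) ∧
    ∀ a b, H a b → f a = f b ∨ M.Tri i (f a) (f b) ∨ M.Tri i (f b) (f a)) ∨
  ∃ A : V → V → V → Prop, (∀ a b c, M.Tri a b c → A a b c → A b c a) ∧ A x y z ∧
    (∀ a b, M.Tri i a b → ¬ A i a b) ∧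
    (∀ a b c d, M.Tri a b c → M.Tri b a d → A a b c → ¬ A b a d → H a b) ∧
    {e : V × V | ∃ c d, M.Tri e.1 e.2 c ∧ M.Tri e.2 e.1 d ∧ A e.1 e.2 c ∧ ¬ A e.2 e.1 d}.ncard
      < {v | M.Adj i v}.ncard

/-- D4. Uncrossing. -/
def D4 : Prop := ∀ (V : Type) [Fintype V] (M : Surf V), M.IsSphere → ∀ (i : V)
  (H : V → V → Prop), (∀ a b, H a b → H b a) → (∀ a b, H a b → M.Adj a b) →
  (∀ a b, H a b → a ≠ i) → (∀ a b, M.Tri i a b → H a b) → ∀ ℓ : ℕ,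
  (∀ x y z, M.Tri x y z → x ≠ i → y ≠ i → z ≠ i →
    ∃ A : V → V → V → Prop, (∀ a b c, M.Tri a b c → A a b c → A b c a) ∧ A x y z ∧
    (∀ a b, M.Tri i a b → ¬ A i a b) ∧
    (∀ a b c d, M.Tri a b c → M.Tri b a d → A a b c → ¬ A b a d → H a b) ∧
    {e : V × V | ∃ c d, M.Tri e.1 e.2 c ∧ M.Tri e.2 e.1 d ∧ A e.1 e.2 c ∧ ¬ A e.2 e.1 d}.ncard
      < ℓ) →
  ∃ H' : V → V → Prop, (∀ a b, H' a b → H' b a) ∧ (∀ a b, H' a b → H a b) ∧
    (∀ a b, M.Tri i a b → H' a b) ∧ (∀ a b a' b', H' a b → H' a' b' → ReflTransGen H' a a') ∧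
    ∀ x y z, M.Tri x y z → x ≠ i → y ≠ i → z ≠ i →
      (M.bdarts H' (x, y, z)).ncard < ℓ ∧
      ∀ a b c, M.SameFace H' (x, y, z) (a, b, c) → a ≠ i ∧ b ≠ i ∧ c ≠ i

/-- `Δ` is an outerplanar sphere on `i` and its neighbours in `M`, with the same link of `i` -/
def IsTarget (M : Surf V) (i : V) (Δ : Surf {x : V // x = i ∨ M.Adj i x}) : Prop :=
  IsOut Δ ⟨i, Or.inl rfl⟩ ∧
    ∀ a b : {x : V // x = i ∨ M.Adj i x}, M.Tri i a.1 b.1 → Δ.Tri ⟨i, Or.inl rfl⟩ a b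

/-- a Lipschitz map from `M` to the target `Δ`, the identity on `i` and its link -/
def IsLip (M : Surf V) (i : V) (Δ : Surf {x : V // x = i ∨ M.Adj i x})
    (f : V → {x : V // x = i ∨ M.Adj i x}) : Prop :=
  (∀ x : {x : V // x = i ∨ M.Adj i x}, f x.1 = x) ∧ (∀ v, (f v).1 = i → v = i) ∧
    ∀ a b, M.Adj a b → f a = f b ∨ Δ.Adj (f a) (f b)

/-- D5. Theorem D. -/
def D5 : Prop := ∀ ℓ : ℕ, ∃ h : ℕ, ∀ (V : Type) [Fintype V] (M : Surf V), M.IsSphere → ∀ (i : V),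
  {v | M.Adj i v}.ncard = ℓ → 3 ≤ ℓ → ∀ Δ, IsTarget M i Δ →
  (∃ f, IsLip M i Δ f) ∨
  ∃ H' : V → V → Prop, (∀ a b, H' a b → H' b a) ∧ (∀ a b, H' a b → M.Adj a b) ∧
    (∀ a b, H' a b → a ≠ i) ∧ {e : V × V | H' e.1 e.2}.ncard ≤ h ∧
    (∀ a b, M.Tri i a b → H' a b) ∧ (∀ a b a' b', H' a b → H' a' b' → ReflTransGen H' a a') ∧
    ∀ x y z, M.Tri x y z → x ≠ i → y ≠ i → z ≠ i →
      (M.bdarts H' (x, y, z)).ncard < ℓ ∧
      ∀ a b c, M.SameFace H' (x, y, z) (a, b, c) → a ≠ i ∧ b ≠ i ∧ c ≠ i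

/-! ### Theorem L' -/

/-- L. Fat outerplanar discs. -/
def L : Prop := ∀ (V V' : Type) [Fintype V] [Fintype V'] (M : Surf V) (Δ : Surf V') (i : V')
  (φ : V → V'), M.IsSphere → IsOut Δ i → 4 ≤ Fintype.card V' → WSimp M Δ φ →
  ConnOn M.Adj (φ ⁻¹' {i}) → ConnOn M.Adj (φ ⁻¹' {i})ᶜ →
  (∀ x y, Δ.Tri i x y → ∃ t : V × V × V, M.Tri t.1 t.2.1 t.2.2 ∧ φ t.1 = i ∧ φ t.2.1 = x ∧
    φ t.2.2 = y ∧ ∀ s : V × V × V, M.Tri s.1 s.2.1 s.2.2 → φ s.1 = i → φ s.2.1 = x →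
      φ s.2.2 = y → s = t) →
  (∀ a b c, M.Tri a b c → φ a = i → φ b ≠ i → φ c ≠ i → φ b ≠ φ c → Δ.Tri i (φ b) (φ c)) →
  ∃ ψ : V → V', IsQuot M Δ ψ ∧ (∀ v, ψ v = i ↔ φ v = i) ∧
    ∀ v o, φ o = i → M.Adj o v → ψ v = φ v

end Pool.Agent.H77.RCR
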