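import Pool.Agent.H77.RCR.StD

/-!
# Project RCR: statements of part L (proof of Theorem L', the statement `L` of `StD`)
-/

open Relation

namespace Pool.Agent.H77.RCR

variable {V V' V'' : Type}

/-- number of (ordered) bichromatic edges -/
noncomputable def bich (M : Surf V) (φ : V → V') : ℕ :=
  {e : V × V | M.Adj e.1 e.2 ∧ φ e.1 ≠ φ e.2}.ncard

/-- the hypotheses of Theorem L' -/
structure Fat (M : Surf V) (Δ : Surf V') (i : V') (φ : V → V') : Prop where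
  simp : WSimp M Δ φ
  conn : ConnOn M.Adj (φ ⁻¹' {i})
  conn' : ConnOn M.Adj (φ ⁻¹' {i})ᶜ
  pos : ∀ x y, Δ.Tri i x y → ∃ t : V × V × V, M.Tri t.1 t.2.1 t.2.2 ∧ φ t.1 = i ∧ φ t.2.1 = x ∧
    φ t.2.2 = y ∧ ∀ s : V × V × V, M.Tri s.1 s.2.1 s.2.2 → φ s.1 = i → φ s.2.1 = x →
      φ s.2.2 = y → s = t
  neg : ∀ a b c, M.Tri a b c → φ a = i → φ b ≠ i → φ c ≠ i → φ b ≠ φ c → Δ.Tri i (φ b) (φ c)

/-- minimal fat maps, with fixed values on `φ⁻¹ i` and its neighbours -/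
structure Mn (M : Surf V) (Δ : Surf V') (i : V') (φ : V → V') : Prop where
  fat : Fat M Δ i φ
  min : ∀ φ' : V → V', WSimp M Δ φ' → (∀ v, φ' v = i ↔ φ v = i) →
    (∀ v o, φ o = i → M.Adj o v → φ' v = φ v) → bich M φ ≤ bich M φ'

/-- L1. The neighbours of the outside with a given label are connected with each other. -/
def L1 : Prop := ∀ (V V' : Type) [Fintype V] [Fintype V'] (M : Surf V) (Δ : Surf V') (i : V')
  (φ : V → V'), M.IsSphere → IsOut Δ i → 4 ≤ Fintype.card V' → Fat M Δ i φ → ∀ x, x ≠ i →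
  ConnOn M.Adj {v | φ v = x ∧ ∃ o, φ o = i ∧ M.Adj o v}

/-- L2. For a minimal map: a connected set `K` of free vertices all of whose outside neighbours have
the same label has that label. -/
def L2 : Prop := ∀ (V V' : Type) [Fintype V] [Fintype V'] (M : Surf V) (Δ : Surf V') (i : V')
  (φ : V → V'), M.IsSphere → IsOut Δ i → 4 ≤ Fintype.card V' → Mn M Δ i φ →
  ∀ (K : Set V) (c : V'), ConnOn M.Adj K → c ≠ i →
  (∀ v ∈ K, φ v ≠ i ∧ ∀ o, M.Adj o v → φ o ≠ i) →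
  (∀ v ∈ K, ∀ w, M.Adj v w → w ∈ K ∨ φ w = c) → ∀ v ∈ K, φ v = c

/-- L3. The ear step: `c` an ear over the edge `a b`, `Δ'` the outerplanar sphere without `c`. -/
def L3 : Prop := ∀ (V V' : Type) [Fintype V] [Fintype V'] (M : Surf V) (Δ : Surf V') (i : V')
  (φ : V → V'), M.IsSphere → IsOut Δ i → Mn M Δ i φ → ∀ a b c n, c ≠ i → n ≠ i → n ≠ c →
  Δ.Tri i a c → Δ.Tri i c b → Δ.Tri c a b → Δ.Tri b a n →
  (∀ x, Δ.Adj c x ↔ x = i ∨ x = a ∨ x = b) →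
  ∀ (h : i ≠ c) (Δ' : Surf {x : V' // x ≠ c}), IsOut Δ' ⟨i, h⟩ →
  (∀ x y z : {x : V' // x ≠ c}, Δ'.Tri x y z ↔ Δ.Tri x.1 y.1 z.1 ∨ IsRot x.1 y.1 z.1 (i, a, b)) →
  ConnOn M.Adj (φ ⁻¹' {c}) ∧
    ∀ φ' : V → {x : V' // x ≠ c}, (∀ v, φ v = c → φ' v = ⟨i, h⟩) →
      (∀ v, φ v ≠ c → (φ' v).1 = φ v) → Mn M Δ' ⟨i, h⟩ φ'

/-- L4. Minimal maps have connected fibres. -/
def L4 : Prop := ∀ (V V' : Type) [Fintype V] [Fintype V'] (M : Surf V) (Δ : Surf V') (i : V')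
  (φ : V → V'), M.IsSphere → IsOut Δ i → 4 ≤ Fintype.card V' → Mn M Δ i φ →
  ∀ x, ConnOn M.Adj (φ ⁻¹' {x})

/-- L5. Connected fibres and the hypotheses of Theorem L' give a quotient. -/
def L5 : Prop := ∀ (V V' : Type) [Fintype V] [Fintype V'] (M : Surf V) (Δ : Surf V') (i : V')
  (φ : V → V'), M.IsSphere → IsOut Δ i → 4 ≤ Fintype.card V' → Fat M Δ i φ →
  (∀ x, ConnOn M.Adj (φ ⁻¹' {x})) → IsQuot M Δ φ

/-- L6. Sides of a diagonal: `a b c` the ear face, `n` the apex on the other side of `a b`; the set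
`R` of the labels behind the edge `b n`. -/
def L6 : Prop := ∀ (V' : Type) [Fintype V'] (Δ : Surf V') (i : V'), IsOut Δ i →
  ∀ a b c n, c ≠ i → n ≠ i → n ≠ c → Δ.Tri i a c → Δ.Tri i c b → Δ.Tri c a b → Δ.Tri b a n →
  (∀ x, Δ.Adj c x ↔ x = i ∨ x = a ∨ x = b) → ∃ R L : Set V',
    Disjoint R L ∧ (∀ x, x = i ∨ x = a ∨ x = b ∨ x = c ∨ x = n ∨ x ∈ R ∨ x ∈ L) ∧
    i ∉ R ∧ a ∉ R ∧ b ∉ R ∧ c ∉ R ∧ n ∉ R ∧ i ∉ L ∧ a ∉ L ∧ b ∉ L ∧ c ∉ L ∧ n ∉ L ∧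
    (∀ x ∈ R, ∀ y, Δ.Adj x y → y ∈ R ∨ y = i ∨ y = b ∨ y = n) ∧
    (∀ x ∈ L, ∀ y, Δ.Adj x y → y ∈ L ∨ y = i ∨ y = a ∨ y = n) ∧
    (∀ x ∈ R, ReflTransGen (fun u v => Δ.Tri i u v ∧ v ∈ R) b x) ∧
    (∀ x ∈ L, ReflTransGen (fun u v => Δ.Tri i v u ∧ v ∈ L) a x)

end Pool.Agent.H77.RCR
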