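import Pool.Agent.H3.RCR.Util

/-!
# Project RCR: cutting and splitting walks
-/

namespace Pool.Agent.H3.RCR.SC

open Finset

/-- the walk `w` with the part between the positions `i` and `j` removed -/
def cut (w : ℕ → ℕ) (i j : ℕ) : ℕ → ℕ := fun k => if k ≤ i then w k else w (k + (j - i))

/-- a walk of length `n` with vertices in `R` -/
structure OWalk (F : Finset Tri) (R : Set ℕ) (n : ℕ) (w : ℕ → ℕ) : Prop where
  adj : ∀ i < n, Adj F (w i) (w (i + 1))
  mem : ∀ i ≤ n, w i ∈ R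

theorem cut_le {w : ℕ → ℕ} {i j k : ℕ} (h : k ≤ i) : cut w i j k = w k := if_pos h

theorem cut_add {w : ℕ → ℕ} {i j : ℕ} (hij : i ≤ j) (h : w i = w j) (k : ℕ) :
    cut w i j (i + k) = w (j + k) := by
  unfold cut
  by_cases hk : k = 0
  · subst hk
    simp [h]
  · rw [if_neg (by omega)]
    congr 1
    omega

theorem wsum_append (ψ : ℕ → ℕ → ℤ) (w : ℕ → ℕ) (m n : ℕ) :
    wsum ψ (m + n) w = wsum ψ m w + wsum ψ n (fun k => w (m + k)) := by
  unfold wsum
  rw [sum_range_add]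
  rfl

theorem wsum_congr {ψ : ℕ → ℕ → ℤ} {w w' : ℕ → ℕ} {n : ℕ} (h : ∀ i ≤ n, w i = w' i) :
    wsum ψ n w = wsum ψ n w' := by
  unfold wsum
  refine sum_congr rfl fun i hi => ?_
  rw [mem_range] at hi
  rw [h i hi.le, h (i + 1) hi]

theorem wsum_cut (ψ : ℕ → ℕ → ℤ) {w : ℕ → ℕ} {i j n : ℕ} (hij : i ≤ j) (hjn : j ≤ n)
    (h : w i = w j) :
    wsum ψ n w = wsum ψ (n - (j - i)) (cut w i j) + wsum ψ (j - i) (fun k => w (i + k)) := by
  have e1 : wsum ψ n w = wsum ψ i w + (wsum ψ (j - i) (fun k => w (i + k)) +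
      wsum ψ (n - j) (fun k => w (j + k))) := by
    have : n = i + ((j - i) + (n - j)) := by omega
    conv_lhs => rw [this]
    rw [wsum_append, wsum_append]
    congr 2
    refine wsum_congr fun k _ => ?_
    congr 1
    omega
  have e2 : wsum ψ (n - (j - i)) (cut w i j) = wsum ψ i w + wsum ψ (n - j) (fun k => w (j + k)) := by
    have : n - (j - i) = i + (n - j) := by omega
    rw [this, wsum_append]
    congr 1
    · exact wsum_congr fun k hk => cut_le hk
    · exact wsum_congr fun k _ => cut_add hij h k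
  rw [e1, e2]
  ring

theorem owalk_cut {F : Finset Tri} {R : Set ℕ} {w : ℕ → ℕ} {i j n : ℕ} (hw : OWalk F R n w)
    (hij : i ≤ j) (hjn : j ≤ n) (h : w i = w j) : OWalk F R (n - (j - i)) (cut w i j) := by
  constructor
  · intro k hk
    by_cases hki : k < i
    · rw [cut_le hki.le, cut_le (by omega : k + 1 ≤ i)]
      exact hw.adj k (by omega)
    · obtain ⟨l, rfl⟩ := Nat.exists_eq_add_of_le (not_lt.1 hki)
      have := cut_add hij h (l + 1)
      rw [← add_assoc] at this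
      rw [cut_add hij h, this, ← add_assoc]
      exact hw.adj _ (by omega)
  · intro k hk
    by_cases hki : k ≤ i
    · rw [cut_le hki]
      exact hw.mem k (by omega)
    · obtain ⟨l, rfl⟩ := Nat.exists_eq_add_of_le (not_le.1 hki).le
      rw [cut_add hij h]
      exact hw.mem _ (by omega)

theorem cut_last {w : ℕ → ℕ} {i j n : ℕ} (hij : i ≤ j) (hjn : j ≤ n) (h : w i = w j) :
    cut w i j (n - (j - i)) = w n := by
  have : n - (j - i) = i + (n - j) := by omega
  rw [this, cut_add hij h]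
  congr 1
  omega

theorem cut_zero {w : ℕ → ℕ} {i j : ℕ} : cut w i j 0 = w 0 := cut_le (Nat.zero_le _)

theorem owalk_mid {F : Finset Tri} {R : Set ℕ} {w : ℕ → ℕ} {i j n : ℕ} (hw : OWalk F R n w)
    (hij : i ≤ j) (hjn : j ≤ n) : OWalk F R (j - i) (fun k => w (i + k)) := by
  constructor
  · intro k hk
    show Adj F (w (i + k)) (w (i + (k + 1)))
    rw [← add_assoc]
    exact hw.adj _ (by omega)
  · intro k hk
    exact hw.mem _ (by omega)

theorem cwalk_iff {F : Finset Tri} {R : Set ℕ} {n : ℕ} {w : ℕ → ℕ} :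
    CWalk F R n w ↔ OWalk F R n w ∧ w n = w 0 :=
  ⟨fun h => ⟨⟨h.adj, h.mem⟩, h.closed⟩, fun h => ⟨h.1.adj, h.1.mem, h.2⟩⟩

theorem cwalk_mid {F : Finset Tri} {R : Set ℕ} {w : ℕ → ℕ} {i j n : ℕ} (hw : OWalk F R n w)
    (hij : i ≤ j) (hjn : j ≤ n) (h : w i = w j) : CWalk F R (j - i) (fun k => w (i + k)) := by
  refine cwalk_iff.2 ⟨owalk_mid hw hij hjn, ?_⟩
  show w (i + (j - i)) = w (i + 0)
  rw [add_zero, h]
  congr 1
  omega

theorem cwalk_cut {F : Finset Tri} {R : Set ℕ} {w : ℕ → ℕ} {i j n : ℕ} (hw : CWalk F R n w)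
    (hij : i ≤ j) (hjn : j ≤ n) (h : w i = w j) : CWalk F R (n - (j - i)) (cut w i j) := by
  obtain ⟨h1, h2⟩ := cwalk_iff.1 hw
  refine cwalk_iff.2 ⟨owalk_cut h1 hij hjn h, ?_⟩
  rw [cut_last hij hjn h, cut_zero, h2]

theorem CWalk.mono {F : Finset Tri} {R R' : Set ℕ} {n : ℕ} {w : ℕ → ℕ} (h : CWalk F R n w)
    (hR : R ⊆ R') : CWalk F R' n w := ⟨h.adj, fun i hi => hR (h.mem i hi), h.closed⟩

/-- a long walk in a finite set has a repetition -/
theorem repeat_of_long {R : Finset ℕ} {n : ℕ} {w : ℕ → ℕ} (hw : ∀ i ≤ n, w i ∈ R)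
    (hn : R.card ≤ n) : ∃ i j, i < j ∧ j ≤ n ∧ w i = w j := by
  classical
  have : ∃ x ∈ range (n + 1), ∃ y ∈ range (n + 1), x ≠ y ∧ w x = w y := by
    refine exists_ne_map_eq_of_card_lt_of_maps_to (t := R) ?_ ?_
    · rw [card_range]; omega
    · intro i hi
      simp only [coe_range, Set.mem_Iio] at hi
      exact hw i (by omega)
  obtain ⟨x, hx, y, hy, hxy, h⟩ := this
  rw [mem_range] at hx hy
  rcases lt_or_gt_of_ne hxy with h' | h'
  · exact ⟨x, y, h', by omega, h⟩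
  · exact ⟨y, x, h', by omega, h.symm⟩

end Pool.Agent.H3.RCR.SC
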